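import Pool.Agent.P.MP_26ce3f_co.PS.Two

/-! The easy cases: one letter, degree one, and degree two over two letters are in `P`. -/

namespace Pool.Agent.P.MP_26ce3f_co

open Pool.Agent.Lib.helper21 Pool.Agent.Lib.helper77

/-- One step of the parser of lists of binary numbers. -/
def ezStep (s : Bool × List Bool × List (List Bool)) (b : Bool) :
    Bool × List Bool × List (List Bool) :=
  cond s.1 (false, b :: s.2.1, s.2.2) (cond b (true, s.2.1, s.2.2) (false, [], s.2.1 :: s.2.2))

/-- The list of numbers read from a bit string. -/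
def ezParse (y : List Bool) : List ℕ :=
  (y.foldl ezStep (false, [], [])).2.2.reverse.map fun l => valB l 0

theorem ez_bits (l cur : List Bool) (acc : List (List Bool)) :
    (l.flatMap fun b => [true, b]).foldl ezStep (false, cur, acc) =
      (false, l.reverse ++ cur, acc) := by
  induction l generalizing cur with
  | nil => rfl
  | cons b l ih => simp [ezStep, ih]

theorem ez_fold (l : List ℤ) (acc : List (List Bool)) :
    (encZ l).foldl ezStep (false, [], acc) =
      (false, [], (l.map fun z => z.natAbs.bits.reverse).reverse ++ acc) := by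
  induction l generalizing acc with
  | nil => rfl
  | cons z l ih =>
    have e : encZ (z :: l) = (z.natAbs.bits.flatMap fun b => [true, b]) ++ false :: encZ l := by
      simp [encZ]
    rw [e, List.foldl_append, ez_bits, List.foldl_cons]
    simp [ezStep, ih]

theorem ez_valB (n : ℕ) : valB n.bits.reverse 0 = n := by
  induction n using Nat.binaryRec' with
  | zero => rfl
  | bit b n h ih =>
    rw [Nat.bits_append_bit n b h, List.reverse_cons]
    unfold valB at ih ⊢
    rw [List.foldl_append, ih]; rfl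

theorem ez_parse (l : List ℤ) : ezParse (encZ l) = l.map Int.natAbs := by
  simp [ezParse, ez_fold, Function.comp_def, ez_valB]

theorem ez_pt_parse : PT fun y => (ezParse y).map fun n : ℕ => (n : ℤ) := by
  have h1 : PT fun y : List Bool => y.foldl ezStep (false, [], []) :=
    PT.foldl_add (f := fun _ => ezStep) (by unfold ezStep; fun_prop) PT.id (PT.const _)
      (fun _ => 10) (Bd.const _ _) fun _ s b => by
        obtain ⟨m, cur, acc⟩ := s
        cases m <;> cases b <;> simp [ezStep] <;> omega
  have h2 : PT fun p : List Bool × List Bool => (valB p.2 0 : ℤ) :=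
    (PT.valB (l := fun p : List Bool × List Bool => p.2) (f := fun _ => ⟨0⟩) (by fun_prop)
      (PT.const _)).toZ
  exact (PT.map (g := fun _ l => (valB l 0 : ℤ)) h1.snd.snd.reverse h2).of_eq fun y => by
    simp [ezParse]

theorem easy_of {k t : ℕ} (φ : List Bool → Bool) (hφ : PT φ)
    (h : ∀ y, φ y = true ↔ ∃ w : List (Fin k), spec t w = ezParse y) :
    specLang k t ∈ N68a2faeb.P := by
  have h1 := (PT.bitsEq (pt_encZ.comp ez_pt_parse) PT.id).and hφ
  refine toPrelude (e := fun b : Bool => [b]) ((h1.cons (PT.const [])).of_eq fun y => ?_)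
  congr 1
  rw [Bool.eq_iff_iff]
  have e : ∀ l : List ℕ, encZ (l.map fun n : ℕ => (n : ℤ)) = N487b59b3.bitEncode l := fun l => by
    rw [encZ_eq]; simp [Function.comp_def]
  simp only [specLang, Bool.and_eq_true, decide_eq_true_eq, h, e]
  constructor
  · rintro ⟨h2, w, h3⟩
    exact ⟨w, by rw [h3, h2]⟩
  · rintro ⟨w, rfl⟩
    have h2 : ezParse (N487b59b3.bitEncode (spec t w)) = spec t w := by
      rw [← e, ez_parse]; simp [Function.comp_def]
    rw [h2]
    exact ⟨rfl, w, rfl⟩

/-- One step of the greedy search for the largest `n` with `n.choose t ≤ c`. -/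
def ezG (t c r i : ℕ) : ℕ := if (r + 2 ^ i).choose t ≤ c then r + 2 ^ i else r

/-- The largest `n` with `n.choose t ≤ c`. -/
def ezRoot (t c : ℕ) : ℕ := (List.range (c.size + 1 + t)).reverse.foldl (ezG t c) 0

theorem ez_greedy (t c m : ℕ) : ∀ r, r.choose t ≤ c → c < (r + 2 ^ m).choose t →
    ((List.range m).reverse.foldl (ezG t c) r).choose t ≤ c ∧
      c < ((List.range m).reverse.foldl (ezG t c) r + 1).choose t := by
  induction m with
  | zero => exact fun r h1 h2 => ⟨h1, h2⟩
  | succ m ih =>
    intro r h1 h2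
    rw [List.range_succ, List.reverse_append, List.reverse_singleton, List.singleton_append,
      List.foldl_cons, ezG]
    split_ifs with h
    · exact ih _ h (by rwa [add_assoc, ← two_mul, ← pow_succ'])
    · exact ih _ h1 (not_le.1 h)

theorem ez_root {t : ℕ} (ht : 1 ≤ t) (c : ℕ) :
    (ezRoot t c).choose t ≤ c ∧ ∀ n, n.choose t ≤ c → n ≤ ezRoot t c := by
  obtain ⟨s, rfl⟩ := Nat.exists_eq_add_of_le' ht
  obtain ⟨h1, h2⟩ := ez_greedy (s + 1) c (c.size + 1 + (s + 1)) 0 (by simp) (by
    have h1 := le_choose_add (2 ^ (c.size + 1 + (s + 1))) s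
    have h2 := Nat.lt_size_self c
    have h3 : s < 2 ^ s := Nat.lt_two_pow_self
    have h4 : 2 ^ (c.size + 1 + (s + 1)) = 4 * (2 ^ c.size * 2 ^ s) := by ring
    have h5 : (c + 1) * (s + 1) ≤ 2 ^ c.size * 2 ^ s := Nat.mul_le_mul h2 h3
    rw [zero_add]
    nlinarith [Nat.zero_le (c * s)])
  refine ⟨h1, fun n hn => ?_⟩
  by_contra h
  exact absurd ((Nat.choose_le_choose _ (not_le.1 h)).trans hn) (not_le.2 h2)

theorem ez_le (t c B : ℕ) (l : List ℕ) (hl : ∀ i ∈ l, 2 ^ i ≤ B) :
    ∀ r, l.foldl (ezG t c) r ≤ r + l.length * B := by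
  induction l with
  | nil => simp
  | cons i l ih =>
    intro r
    have h1 := ih (fun j hj => hl j (List.mem_cons_of_mem _ hj)) (ezG t c r i)
    have h2 := hl i List.mem_cons_self
    have h3 : ezG t c r i ≤ r + 2 ^ i := by unfold ezG; split_ifs; exacts [le_rfl, Nat.le_add_right _ _]
    rw [List.foldl_cons, List.length_cons, Nat.succ_mul]; omega

section
variable {α : Type} [Enc α]

theorem ez_pt_choose {f : α → ℕ} (hf : PT fun a => (f a : ℤ)) (t : ℕ) :
    PT fun a => ((f a).choose t : ℤ) :=
  Nice.pt (P := fun a (_ : Unit) => f a) (fun _ => hf)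
    (Nice.choose (n := fun p => p ()) (Nice.var ()) t)

theorem ez_pt_root {f : α → ℕ} (hf : PT fun a => (f a : ℤ)) (t : ℕ) :
    PT fun a => (ezRoot t (f a) : ℤ) := by
  let st : α → ℤ → ℕ → ℤ := fun a r i => ezG t (f a) r.natAbs i
  have hc : ∀ (a : α) (l : List ℕ) (r : ℕ),
      l.foldl (st a) (r : ℤ) = (l.foldl (ezG t (f a)) r : ℕ) := by
    intro a l
    induction l with
    | nil => exact fun _ => rfl
    | cons i l ih => exact fun r => ih _
  have h0 : PT fun p : α × ℤ × ℕ => (p.2.1.natAbs : ℤ) :=
    (PT.absB (f := fun p : α × ℤ × ℕ => p.2.1) (by fun_prop)).toZ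
  have h1 : PT fun p : α × ℤ × ℕ => ((p.2.1.natAbs + 2 ^ p.2.2 : ℕ) : ℤ) :=
    (h0.intAdd (PT.intPow (PT.const 2) (n := fun p : α × ℤ × ℕ => p.2.2) (by fun_prop))).of_eq
      fun p => by simp only [Nat.cast_add, Nat.cast_pow, Nat.cast_ofNat]
  have h2 : PT fun p : α × ℤ × ℕ => st p.1 p.2.1 p.2.2 :=
    (((ez_pt_choose h1 t).intLe (hf.comp (g := fun p : α × ℤ × ℕ => p.1) (by fun_prop))).cond
      h1 h0).of_eq fun p => by
        simp only [st, ezG, Nat.cast_le]
        split_ifs with h <;> simp only [h, decide_true, decide_false, cond_true, cond_false]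
  have hm : PT fun a => sz (f a : ℤ) + t := hf.size.add (PT.const t)
  refine (PT.foldl (f := st) (init := fun _ => ((0 : ℕ) : ℤ)) h2 hm.range.reverse (PT.const _)
    (fun a => 2 * (sz (f a : ℤ) + t) + 2)
    (((Bd.const _ _).mul hm.bdNat).add (Bd.const _ _)) fun a j => ?_).of_eq fun a => ?_
  · generalize sz (f a : ℤ) + t = m
    have h3 := ez_le t (f a) (2 ^ m) ((List.range m).reverse.take j) (fun i hi =>
      Nat.pow_le_pow_right two_pos (List.mem_range.1 (List.mem_reverse.1
        (List.mem_of_mem_take hi))).le) 0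
    have h4 : ((List.range m).reverse.take j).length < 2 ^ m :=
      ((List.length_take_le' _ _).trans (by simp)).trans_lt Nat.lt_two_pow_self
    rw [hc, sz_int, Int.natAbs_natCast]
    refine Nat.succ_le_succ (Nat.le_succ_of_le (Nat.size_le.2 (h3.trans_lt ?_)))
    rw [zero_add, two_mul, pow_add]
    exact Nat.mul_lt_mul_of_pos_right h4 (by positivity)
  · rw [hc, sz_int, Int.natAbs_natCast]; rfl

end

theorem ez_pt_get (i : ℕ) : PT fun y => ((ezParse y).getD i 0 : ℤ) :=
  (ez_pt_parse.getD (PT.const i) (PT.const 0)).of_eq fun y => by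
    simp only [List.getD_eq_getElem?_getD, List.getElem?_map]
    cases (ezParse y)[i]? <;> rfl

theorem ez_pt_len (n : ℕ) : PT fun y => decide ((ezParse y).length = n) :=
  (ez_pt_parse.length.decEq (PT.const n)).of_eq fun y => by simp

theorem easy_letter {t : ℕ} (ht : 1 ≤ t) : specLang 1 t ∈ N68a2faeb.P := by
  have hw : ∀ t, words 1 t = [List.replicate t 0] := fun t => by
    unfold words
    induction t with
    | zero => rfl
    | succ t ih => rw [List.replicate_succ, List.sections, ih]; rfl
  refine easy_of _ ((ez_pt_len 1).and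
    ((ez_pt_choose (ez_pt_root (ez_pt_get 0) t) t).intEq (ez_pt_get 0))) fun y => ?_
  generalize ezParse y = l
  simp only [Bool.and_eq_true, decide_eq_true_eq, Nat.cast_inj, spec, hw, List.map_cons,
    List.map_nil, occ_replicate]
  constructor
  · rintro ⟨h1, h2⟩
    obtain ⟨c, rfl⟩ := List.length_eq_one_iff.1 h1
    exact ⟨List.replicate (ezRoot t c) 0, by simpa using h2⟩
  · rintro ⟨w, rfl⟩
    obtain ⟨h1, h2⟩ := ez_root ht ((w.count 0).choose t)
    exact ⟨rfl, h1.antisymm (Nat.choose_le_choose _ (h2 _ le_rfl))⟩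

theorem easy_degree (k : ℕ) : specLang k 1 ∈ N68a2faeb.P := by
  have hw : words k 1 = (List.finRange k).map fun a => [a] := by
    simp [words, List.sections]
  refine easy_of _ (ez_pt_len k) fun y => ?_
  generalize ezParse y = l
  simp only [decide_eq_true_eq, spec, hw, List.map_map, Function.comp_def, occ_single]
  constructor
  · rintro rfl
    refine ⟨(∑ a : Fin l.length, Multiset.replicate l[a] a).toList,
      List.ext_getElem (by simp) fun i h1 h2 => ?_⟩
    rw [List.getElem_map, ← Multiset.coe_count, Multiset.coe_toList, Multiset.count_sum']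
    simp [Multiset.count_replicate]
  · rintro ⟨w, rfl⟩
    simp

theorem ez_word (p q : ℕ) : ∀ x ≤ p * q, ∃ w : List (Fin 2),
    w.count 0 = p ∧ w.count 1 = q ∧ occ w [0, 1] = x := by
  have h01 : (0 : Fin 2) ≠ 1 := by decide
  induction q with
  | zero =>
    intro x hx
    exact ⟨List.replicate p 0, by simp, by simp [List.count_replicate],
      by rw [occ2_replicate _ _ h01]; omega⟩
  | succ q ih =>
    intro x hx
    rcases Nat.lt_or_ge x p with h | h
    · refine ⟨List.replicate q 1 ++ (List.replicate x 0 ++ (List.replicate 1 1 ++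
        List.replicate (p - x) 0)), ?_, ?_, ?_⟩
      · simp [List.count_replicate]; omega
      · simp [List.count_replicate]
      · simp only [occ2_append, occ2_replicate _ _ h01]
        simp [List.count_replicate]
    · obtain ⟨w, h1, h2, h3⟩ := ih (x - p) (by rw [Nat.mul_succ] at hx; omega)
      refine ⟨w ++ List.replicate 1 1, by simp [h1], by simp [h2], ?_⟩
      simp only [occ2_append, occ2_replicate _ _ h01, h1, h3]
      simp; omega

theorem ez_two (p : ℕ) : p = ezRoot 2 (p.choose 2) ∨ p = 0 := by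
  obtain ⟨h1, h2⟩ := ez_root one_le_two (p.choose 2)
  rcases (h2 p le_rfl).eq_or_lt with h | h
  · exact Or.inl h
  · have h3 := (Nat.choose_le_choose 2 h).trans h1
    have h4 : p.succ.choose 2 = p.choose 1 + p.choose 2 := Nat.choose_succ_succ' p 1
    rw [h4, Nat.choose_one_right] at h3
    exact Or.inr (by omega)

theorem easy_two : specLang 2 2 ∈ N68a2faeb.P := by
  have hw : words 2 2 = [[0, 0], [1, 0], [0, 1], [1, 1]] := by decide
  have h01 : (0 : Fin 2) ≠ 1 := by decide
  let r : ℕ → Bool → List Bool → ℕ := fun i b y => cond b (ezRoot 2 ((ezParse y).getD i 0)) 0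
  have hr : ∀ i b, PT fun y => (r i b y : ℤ) := fun i b => by
    cases b
    exacts [PT.const 0, ez_pt_root (ez_pt_get i) 2]
  refine easy_of _ ((ez_pt_len 4).and (PT.anyC (fun b : Bool × Bool =>
    ((ez_pt_choose (hr 0 b.1) 2).intEq (ez_pt_get 0)).and
    (((ez_pt_choose (hr 3 b.2) 2).intEq (ez_pt_get 3)).and
    (((ez_pt_get 2).intAdd (ez_pt_get 1)).intEq ((hr 0 b.1).intMul (hr 3 b.2)))))
    [(true, true), (true, false), (false, true), (false, false)])) fun y => ?_
  simp only [Bool.and_eq_true, decide_eq_true_eq, List.any_eq_true, ← Nat.cast_add,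
    ← Nat.cast_mul, Nat.cast_inj, spec, hw, List.map_cons, List.map_nil, occ2_diag, r]
  generalize ezParse y = l
  constructor
  · rintro ⟨h1, b, -, h2, h3, h4⟩
    obtain ⟨w, e1, e2, e3⟩ := ez_word _ _ (l.getD 2 0) (Nat.le.intro h4)
    have e4 := occ2_swap w h01
    rw [e1, e2, e3, ← h4, add_right_inj] at e4
    refine ⟨w, ?_⟩
    rw [e1, e2, e3, e4, h2, h3]
    match l, h1 with
    | [_, _, _, _], _ => rfl
  · rintro ⟨w, rfl⟩
    have e4 := occ2_swap w h01
    refine ⟨rfl, ?_⟩
    simp only [List.getD_cons_zero, List.getD_cons_succ, e4]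
    rcases ez_two (w.count 0) with h | h <;> rcases ez_two (w.count 1) with h' | h'
    · exact ⟨(true, true), by simp, by simp only [cond_true, ← h, ← h', and_self]⟩
    · exact ⟨(true, false), by simp, by simp only [cond_true, cond_false, ← h, h', and_self]⟩
    · exact ⟨(false, true), by simp, by simp only [cond_true, cond_false, h, ← h', and_self]⟩
    · exact ⟨(false, false), by simp, by simp only [cond_false, h, h', and_self]⟩

theorem easy_P {k t : ℕ} (_hk : 1 ≤ k) (ht : 1 ≤ t) (h : k = 1 ∨ t = 1 ∨ (k = 2 ∧ t = 2)) :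
    specLang k t ∈ N68a2faeb.P := by
  rcases h with rfl | rfl | ⟨rfl, rfl⟩
  exacts [easy_letter ht, easy_degree k, easy_two]

end Pool.Agent.P.MP_26ce3f_co
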