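import Pool.Agent.P.MP_26ce3f_co.PS.Two

/-! Families of group-like series: prescribing coefficients and reducing to the top degree. -/

namespace Pool.Agent.P.MP_26ce3f_co

open Ser Pool.Agent.Lib.helper21

variable {α ι : Type} [DecidableEq α] [Fintype α]

/-- Families of quotients of words, of length at least `t`, with polynomial coefficients. -/
structure Good (t : ℕ) (g : (ι → ℕ) → Ser α) : Prop where
  nice : NiceS g
  fr : ∀ p, Fr (g p)
  deg : ∀ p, ∃ n : ℕ, t ≤ n ∧ Dop (g p) = (n : ℤ) • g p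

theorem Good.mul {t s : ℕ} {g : (ι → ℕ) → Ser α} (h : Good t g) {v : (ι → ℕ) → List α}
    (hv : NiceS fun p => ws (v p)) (hs : ∀ p, s ≤ t + (v p).length) :
    Good s fun p => g p * ws (v p) := by
  refine ⟨h.nice.mul hv, fun p => (h.fr p).mul (Fr.ws _), fun p => ?_⟩
  obtain ⟨n, h1, h2⟩ := h.deg p
  refine ⟨n + (v p).length, by have := hs p; omega, ?_⟩
  rw [Dop_mul, h2, Dop_ws, smul_mul_assoc, mul_smul_comm, Nat.cast_add, add_smul]

theorem Good.one : Good 0 fun _ : ι → ℕ => (1 : Ser α) :=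
  ⟨NiceS.const _, fun _ => by simpa using Fr.ws ([] : List α), fun _ => ⟨0, le_rfl, by simp [Dop_one]⟩⟩

omit [Fintype α] in
theorem NiceS.rep (a : α) {n : (ι → ℕ) → ℕ} (hn : Nice fun p => (n p : ℤ)) :
    NiceS fun p => ws (List.replicate (n p) a) :=
  (NiceS.pow (ws_one [a]) hn).of_eq fun _ => (ws_replicate _ _).symm

omit [DecidableEq α] [Fintype α] in
theorem exists_inv' {h : Ser α} (h1 : h [] = 1) : ∃ g : Ser α, g * h = 1 ∧ h * g = 1 := by
  obtain ⟨g, hg⟩ := exists_inv h1
  obtain ⟨g', hg'⟩ := exists_inv (h := g) (by simpa [h1] using congrFun hg [])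
  have : g' = h := by rw [← one_mul h, ← hg', mul_assoc, hg, mul_one]
  exact ⟨g, hg, this ▸ hg'⟩

theorem exists_quot {s : ℕ} (hs : 1 ≤ s) {u v : List α} (h : Eqv s (ws u) (ws v)) :
    ∃ κ : Ser α, Fr κ ∧ Dop κ = 0 ∧ Sh s κ 1 (ws u - ws v) := by
  obtain ⟨g, h1, h2⟩ := exists_inv' (ws_one v)
  have hF : Fr g := fun t => ⟨v, [], by rw [h1, ws_nil]; exact Eqv.refl _ _⟩
  refine ⟨g * ws u, hF.mul (Fr.ws _), ?_, ?_⟩
  · have e := congrArg (· * g) (Dop_mul g (ws v))
    simp only [h1, Dop_one, Dop_ws, zero_mul, add_mul, mul_assoc, h2, mul_one, mul_smul_comm,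
      smul_mul_assoc, one_mul] at e
    rw [Dop_mul, Dop_ws, eq_neg_of_add_eq_zero_left e.symm, h.length_eq hs, neg_mul,
      smul_mul_assoc, mul_smul_comm, neg_add_cancel]
  · have := (Sh.refl s hF.one).mul (Sh.of_eqv (ws_one _) h)
    rwa [h1, zero_add] at this

theorem Good.pow {t : ℕ} {g : (ι → ℕ) → Ser α} (h : Good t g) {κ : Ser α} (h1 : Fr κ)
    (h2 : Dop κ = 0) {n : (ι → ℕ) → ℕ} (hn : Nice fun p => (n p : ℤ)) :
    Good t fun p => g p * κ ^ n p := by
  refine ⟨h.nice.mul (NiceS.pow h1.one hn), fun p => (h.fr p).mul (h1.pow _), fun p => ?_⟩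
  obtain ⟨m, h3, h4⟩ := h.deg p
  have : ∀ j : ℕ, Dop (κ ^ j) = 0 := fun j => by
    induction j with
    | zero => simpa using Dop_one
    | succ j ih => rw [pow_succ, Dop_mul, ih, h2]; simp
  exact ⟨m, h3, by rw [Dop_mul, h4, this, mul_zero, add_zero, smul_mul_assoc]⟩

/-- Changing the coefficients of degree `s + 1` by a multiple of a difference of words. -/
theorem Good.adjust {t s : ℕ} {g : (ι → ℕ) → Ser α} (h : Good t g) (hs : 1 ≤ s) {u v : List α}
    (huv : Eqv s (ws u) (ws v)) {z : (ι → ℕ) → ℤ} (hz : Nice z) :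
    ∃ g' : (ι → ℕ) → Ser α, Good t g' ∧ ∀ p, Sh s (g' p) (g p) (z p • (ws u - ws v)) := by
  obtain ⟨κ, a1, a2, a3⟩ := exists_quot hs huv
  obtain ⟨κ', b1, b2, b3⟩ := exists_quot hs huv.symm
  have e1 : ∀ p, ((z p * z p + z p).toNat : ℤ) = z p * z p + z p := fun p =>
    Int.toNat_of_nonneg (by nlinarith [Int.le_self_sq (-z p)])
  have e2 : ∀ p, ((z p * z p).toNat : ℤ) = z p * z p := fun p =>
    Int.toNat_of_nonneg (mul_self_nonneg _)
  refine ⟨_, (h.pow a1 a2 (((hz.mul hz).add hz).of_eq fun p => (e1 p).symm)).pow b1 b2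
    ((hz.mul hz).of_eq fun p => (e2 p).symm), fun p => ?_⟩
  have := ((Sh.refl s (h.fr p).one).mul (a3.pow (z p * z p + z p).toNat)).mul
    (b3.pow (z p * z p).toNat)
  simp only [one_pow, mul_one] at this
  refine this.congr fun w _ => ?_
  simp only [add_apply, nsmul_apply, zsmul_apply, sub_apply, zero_apply, e1, e2]
  ring

omit [Fintype α] in
/-- The difference between a word and a quotient of words is a difference of words. -/
theorem fr_top {g : Ser α} (hg : Fr g) {w : List α} {j : ℕ} (h : Eqv j (ws w) g) :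
    ∃ U V : List α, Sh j (ws U) (ws V) (ws w - g) := by
  obtain ⟨R, W, hRW⟩ := hg (j + 1)
  have s2 := (Sh.of_eqv hg.one h).mul (Sh.refl j (ws_one R))
  rw [← ws_append] at s2
  exact ⟨w ++ R, W, (s2.trans (Sh.of_eqv (ws_one W) (hRW.mono (by omega)))).congr fun u hu => by
    simp [hRW u hu.le]⟩

omit [Fintype α] in
theorem fr_step {g : Ser α} (hg : Fr g) {w : List α} {j : ℕ} (h : Eqv j (ws w) g)
    (S : List α → Prop) (h1 : ∀ u, S u → u.length = j + 1 → ws w u = g u)
    (h2 : ∀ U V : List α, Eqv j (ws U) (ws V) → (∀ u, S u → u.length = j + 1 → occ U u = occ V u) →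
      Eqv (j + 1) (ws U) (ws V)) : Eqv (j + 1) (ws w) g := by
  obtain ⟨U, V, h3⟩ := fr_top hg h
  have h4 := h2 U V h3.eqv fun u hu hl => by
    have := h3.top u hl
    rw [sub_apply, h1 u hu hl, ws_apply, ws_apply] at this
    omega
  refine (Sh.of_eqv hg.one h).eqv_succ fun u hu => ?_
  have := h3.top u hu
  rw [h4 u hu.le] at this
  omega

omit [DecidableEq α] [Fintype α] in
theorem eqv_one {f g : Ser α} (h0 : f [] = g []) (h1 : ∀ a, f [a] = g [a]) : Eqv 1 f g := by
  intro u hu
  match u, hu with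
  | [], _ => exact h0
  | [a], _ => exact h1 a

omit [Fintype α] in
theorem Eqv.count {t : ℕ} (ht : 1 ≤ t) {u v : List α} (h : Eqv t (ws u) (ws v)) (a : α) :
    u.count a = v.count a := by simpa [ws_apply, occ_single] using h [a] ht

/-- From a family of series to a polynomial-time reduction. -/
theorem Good.reduce {t k : ℕ} {g : (ι → ℕ) → Ser α} (h : Good t g) (ht : 1 ≤ t)
    (hk : Fintype.card α ≤ k) {P : List Bool → ι → ℕ} (hP : ∀ i, PT fun x => (P x i : ℤ))
    {L : List Bool → Bool} (hL : ∀ x, L x = true ↔ ∃ w, Eqv t (ws w) (g (P x))) :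
    ∃ f : List Bool → List Bool, N68a2faeb.IsPolyTime f ∧ ∀ x, L x = specLang k t (f x) := by
  obtain ⟨e⟩ : Nonempty (α ↪ Fin k) := Function.Embedding.nonempty_of_card_le (by simpa using hk)
  have he := e.injective
  refine Expr.reduce' (φ := fun p => ∃ w, Eqv t (ws w) (g p))
    ⟨fun p => mapS e (g p), h.nice.mapS he, fun p => ⟨?_, ?_⟩⟩ hP hL
  · rintro ⟨w, hw⟩
    exact ⟨w.map e, by rw [ws_map he]; exact hw.mapS he⟩
  · rintro ⟨w, hw⟩
    beta_reduce at hw
    obtain ⟨n, h1, h2⟩ := h.deg p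
    rcases map_or_out e w with ⟨w', rfl⟩ | ⟨c, hc, hc'⟩
    · refine ⟨w', eqv_of_top ht h1 (h.fr p).one h2 w' fun u hu => ?_⟩
      have := hw (u.map e) (by simpa using hu)
      rwa [ws_map he, mapS_map he, mapS_map he] at this
    rcases Nat.lt_or_ge w.length t with hl | hl
    · refine ⟨[], eqv_of_top ht h1 (h.fr p).one h2 [] fun u hu => ?_⟩
      have h3 := hw (u.map e) (by simpa using hu)
      have h4 : ∀ {β : Type} [DecidableEq β] (v y : List β), v.length < y.length → ws v y = 0 :=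
        fun v y hy => by
          rw [ws_apply, Nat.cast_eq_zero]
          by_contra h0
          have := ((occ_pos_iff _ _).1 (Nat.pos_of_ne_zero h0)).length_le
          omega
      rw [mapS_map he, h4 _ _ (by simp; omega)] at h3
      rw [← h3, h4 _ _ (by simp; omega)]
    · obtain ⟨v, hv1, hv2, hv3⟩ := exists_between (List.singleton_sublist.2 hc) t ht hl
      have h3 := hw v hv3
      rw [mapS_out _ (List.singleton_sublist.1 hv1) hc', ws_apply] at h3
      have := (occ_pos_iff _ _).2 hv2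
      omega

omit [Fintype α] in
theorem occ3_append (P Q : List α) (x y z : α) : occ (P ++ Q) [x, y, z] =
    occ P [x, y, z] + occ P [x, y] * Q.count z + P.count x * occ Q [y, z] + occ Q [x, y, z] := by
  have h : ws (P ++ Q) [x, y, z] = (ws P * ws Q) [x, y, z] := by rw [ws_append]
  simp only [mul_cons, mul_nil, der_apply, ws_apply, occ_nil_right, occ_single] at h
  omega

omit [Fintype α] in
theorem exists_cut (a : α) (w : List α) (c : ℕ) (h : c ≤ w.count a) :
    ∃ P S, w = P ++ S ∧ P.count a = c := by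
  induction w generalizing c with
  | nil => exact ⟨[], [], rfl, by simp at h ⊢; omega⟩
  | cons d w ih =>
    rcases c with _ | c
    · exact ⟨[], _, rfl, rfl⟩
    by_cases e : d = a
    · obtain ⟨P, S, h1, h2⟩ := ih c (by simpa [e] using h)
      exact ⟨d :: P, S, by rw [h1]; rfl, by simp [e, h2]⟩
    · obtain ⟨P, S, h1, h2⟩ := ih (c + 1) (by simpa [e] using h)
      exact ⟨d :: P, S, by rw [h1]; rfl, by simp [e, h2]⟩

omit [Fintype α] in
theorem exists_xy {x y : α} (hxy : x ≠ y) (p q m : ℕ) (h : m ≤ p * q) : ∃ w : List α,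
    w.count x = p ∧ w.count y = q ∧ occ w [x, y] = m ∧ ∀ z, z ≠ x → z ≠ y → z ∉ w := by
  induction p generalizing m with
  | zero => exact ⟨List.replicate q y, by simp [List.count_replicate, hxy.symm], by simp, by
      rw [occ2_replicate _ _ hxy]; omega, fun z _ hz => by simp [hz]⟩
  | succ p ih =>
    rcases le_or_gt m (p * q) with h1 | h1
    · obtain ⟨w, a, b, c, d⟩ := ih m h1
      exact ⟨w ++ [x], by simp [a], by simp [b, hxy], by simp [occ2_append, c, occ2_cons, hxy],
        fun z h2 h3 => by simp [h2, d z h2 h3]⟩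
    rcases le_or_gt q m with h2 | h2
    · obtain ⟨w, a, b, c, d⟩ := ih (m - q) (by rw [add_mul] at h; omega)
      exact ⟨x :: w, by simp [a], by simp [b, hxy], by simp [occ2_cons, b, c]; omega,
        fun z h2 h3 => by simp [h2, d z h2 h3]⟩
    · obtain rfl : p = 0 := by
        by_contra h3
        have := Nat.mul_le_mul_right q (Nat.pos_of_ne_zero h3)
        omega
      exact ⟨List.replicate (q - m) y ++ x :: List.replicate m y,
        by simp [List.count_replicate, hxy.symm], by simp [hxy]; omega,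
        by simp [occ2_append, occ2_cons, occ2_replicate, List.count_replicate, hxy, hxy.symm],
        fun z h2 h3 => by simp [h2, h3]⟩

theorem two_choose (n : ℕ) : 2 * (n.choose 2 : ℤ) = n * (n - 1) := by
  induction n with
  | zero => rfl
  | succ n ih => rw [Nat.choose_succ_succ', Nat.choose_one_right]; push_cast; linarith

/-- A promise problem expressed up to degree `t`, soundly even after appending a power of `b`. -/
def Rob (φ ψ : (ι → ℕ) → Prop) (t : ℕ) (b : α) : Prop :=
  ∃ g : (ι → ℕ) → Ser α, Good t g ∧ ∀ p, (φ p → ∃ w, Eqv t (ws w) (g p)) ∧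
    ∀ e w, Eqv t (ws w) (g p * ws (List.replicate e b)) → ψ p

end Pool.Agent.P.MP_26ce3f_co
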