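import Pool.Agent.Lib.helper77.SubsetSum

/-! Quadratic congruences `s ^ 2 ≡ a (mod b)` with a small root are hard for `NP`, with a gap. -/

namespace Pool.Agent.P.MP_26ce3f_co

open Pool.Agent.Lib.helper21 Pool.Agent.Lib.helper77 Finset

theorem split_pow {p : ℕ} (hp : p.Prime) (N : ℕ) {A B : ℤ} (h : (p : ℤ) ^ N ∣ A * B)
    (h' : ¬ (p : ℤ) ∣ A - B) : (p : ℤ) ^ N ∣ A ∨ (p : ℤ) ^ N ∣ B := by
  have hz := Nat.prime_iff_prime_int.1 hp
  by_cases hA : (p : ℤ) ∣ A
  · exact Or.inl (hz.pow_dvd_of_dvd_mul_right N (fun hB => h' (hA.sub hB)) h)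
  · exact Or.inr (hz.pow_dvd_of_dvd_mul_left N hA h)

theorem manders_gap (n N K : ℕ) (p θ : ℕ → ℕ) (hp : ∀ j, (p j).Prime)
    (hinj : ∀ i < n, ∀ j < n, p i = p j → i = j) (hN : 0 < N) (hK : K = ∏ j ∈ range n, p j ^ N)
    (h1 : ∀ i < n, ∀ j < n, i ≠ j → p i ^ N ∣ θ j) (h2 : ∀ j < n, ¬ p j ∣ θ j) (X : ℤ)
    (hX : (K : ℤ) ∣ X * (X - (∑ j ∈ range n, θ j : ℕ))) :
    ∃ Y : ℕ, Y ≤ ∑ j ∈ range n, θ j ∧ (K : ℤ) ∣ X - Y := by
  have hsel : ∀ (z : ℕ → Bool) (j : ℕ), j < n → (p j : ℤ) ^ N ∣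
      ((∑ i ∈ range n, if z i then θ i else 0 : ℕ) : ℤ) - (if z j then θ j else 0 : ℕ) := by
    intro z j hj
    rw [← add_sum_erase _ _ (mem_range.2 hj), Nat.cast_add, add_sub_cancel_left, ← Nat.cast_pow,
      Int.natCast_dvd_natCast]
    refine dvd_sum fun i hi => ?_
    split_ifs
    · exact h1 j hj i (mem_range.1 (mem_of_mem_erase hi)) (ne_of_mem_erase hi).symm
    · exact dvd_zero _
  have hH := hsel fun _ => true
  simp only [if_true] at hH
  let w : ℕ → Bool := fun j => decide (¬ (p j : ℤ) ^ N ∣ X)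
  refine ⟨∑ i ∈ range n, if w i then θ i else 0, sum_le_sum fun i _ => by split_ifs <;> simp, ?_⟩
  rw [hK, Nat.cast_prod]
  refine Finset.prod_dvd_of_coprime (fun i hi j hj hij => ?_) fun j hj => ?_
  · exact Nat.isCoprime_iff_coprime.2 (Nat.Coprime.pow _ _ ((Nat.coprime_primes (hp i) (hp j)).2
      fun e => hij (hinj i (by simpa using hi) j (by simpa using hj) e)))
  have e4 := hsel w j (mem_range.1 hj)
  have e5 := hH j (mem_range.1 hj)
  rw [Nat.cast_pow]
  by_cases hw : (p j : ℤ) ^ N ∣ X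
  · rw [if_neg (by simp [w, hw])] at e4
    exact hw.sub (by simpa using e4)
  · rw [if_pos (by simp [w, hw])] at e4
    have e6 : (p j : ℤ) ^ N ∣ K := by
      rw [hK, ← Nat.cast_pow, Int.natCast_dvd_natCast]; exact dvd_prod_of_mem _ hj
    have e7 := (split_pow (hp j) N (e6.trans hX) fun h => h2 j (mem_range.1 hj) (by
      have := h.sub ((dvd_pow_self _ hN.ne').trans e5)
      rwa [sub_sub_cancel, sub_sub_cancel, Int.natCast_dvd_natCast] at this)).resolve_left hw
    convert (e7.add e5).sub e4 using 1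
    ring

theorem manders_sq (n N m l τ G K H : ℕ) (c p θ : ℕ → ℕ) (hp : ∀ j, (p j).Prime) (hl : l.Prime)
    (hinj : ∀ i < n, ∀ j < n, p i = p j → i = j) (hN : 0 < N) (hm : 0 < m)
    (hK : K = ∏ j ∈ range n, p j ^ N) (hH : H = ∑ j ∈ range n, θ j)
    (hM : (l ^ m).Coprime K) (hc : ∑ j ∈ range n, c j + τ < l ^ m)
    (h1 : ∀ i < n, ∀ j < n, i ≠ j → p i ^ N ∣ θ j) (h2 : ∀ j < n, ¬ p j ∣ θ j)
    (h3 : ∀ j < n, θ j ≡ K * c j [MOD l ^ m]) (h4 : (G + 3) * (H + 1) ≤ K)
    (h5 : ¬ (l : ℤ) ∣ 2 * τ - (∑ j ∈ range n, c j : ℕ)) :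
    ((∃ z : ℕ → Bool, ∑ j ∈ range n, (if z j then c j else 0) = τ) →
      ∃ s : ℤ, |s| ≤ H ∧ ((4 * K * l ^ m : ℕ) : ℤ) ∣ s ^ 2 - (2 * K * τ - H) ^ 2) ∧
    ((∃ s : ℤ, |s| ≤ G * (H + 1) ∧ ((4 * K * l ^ m : ℕ) : ℤ) ∣ s ^ 2 - (2 * K * τ - H) ^ 2) →
      ∃ z : ℕ → Bool, ∑ j ∈ range n, (if z j then c j else 0) = τ) := by
  have hHK : H < K := by nlinarith
  have key := manders n N (l ^ m) τ c p θ K hp hinj hN hK hM hc h1 h2 h3 (hH ▸ hHK)
  rw [← hH] at key
  generalize hMe : l ^ m = M at *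
  have hM0 : 0 < M := by omega
  constructor
  · intro h
    obtain ⟨X, y, z, -, -, -, e1, e2⟩ := key.1 h
    have hX : X ≤ H := by
      by_contra h
      nlinarith
    refine ⟨2 * X - H, by rw [abs_le]; omega, ?_⟩
    have e3 : (X : ℤ) * X + K * y = H * X := by exact_mod_cast e1
    have e4 : (X : ℤ) = M * z + (K * τ - M * (K * τ / M : ℕ)) := by
      have := Nat.div_add_mod (K * τ) M
      zify at this e2 ⊢
      linarith
    have a1 : (K : ℤ) ∣ (X - K * τ) * (X + K * τ - H) :=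
      ⟨τ * H - y - K * τ * τ, by linear_combination e3⟩
    have a2 : (M : ℤ) ∣ (X - K * τ) * (X + K * τ - H) :=
      Dvd.dvd.mul_right (show (M : ℤ) ∣ X - K * τ from
        ⟨z - (K * τ / M : ℕ), by linear_combination e4⟩) _
    obtain ⟨d, hd⟩ := (Nat.isCoprime_iff_coprime.2 hM.symm).mul_dvd a1 a2
    exact ⟨d, by push_cast; linear_combination 4 * hd⟩
  · rintro ⟨s, hs, d, hd⟩
    push_cast at hd
    obtain ⟨X, hX⟩ : ∃ X : ℤ, s = 2 * X - H := by
      have : Even ((s + H) ^ 2) := ⟨2 * K * M * d + 2 * K * K * τ * τ - 2 * K * τ * H + H * H + s * H,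
        by linear_combination hd⟩
      obtain ⟨X, hX⟩ := (Int.even_pow' two_ne_zero).1 this
      exact ⟨X, by omega⟩
    subst hX
    have e1 : (X - K * τ) * (X + K * τ - H) = K * M * d := by
      apply mul_left_cancel₀ (four_ne_zero (α := ℤ))
      linear_combination hd
    have e2 : X * (X - H) = K * (M * d + K * τ * τ - τ * H) := by linear_combination e1
    obtain ⟨Y, hY, hY'⟩ := manders_gap n N K p θ hp hinj hN hK h1 h2 X (hH ▸ ⟨_, e2⟩)
    rw [← hH] at hY
    have h6 : (G : ℤ) * (H + 1) + 3 * H + 3 ≤ K := by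
      have : ((G + 3) * (H + 1) : ℕ) ≤ (K : ℤ) := by exact_mod_cast h4
      push_cast at this; linarith
    have h7 : (0 : ℤ) ≤ G * (H + 1) := by positivity
    obtain rfl : X = Y := by
      have := Int.eq_zero_of_abs_lt_dvd hY' (by rw [abs_lt]; rw [abs_le] at hs; omega)
      omega
    have fin : ∀ Y : ℕ, Y ≤ H → (K : ℤ) ∣ Y * (Y - H) → (M : ℤ) ∣ Y - K * τ →
        ∃ z : ℕ → Bool, ∑ j ∈ range n, (if z j then c j else 0) = τ := fun Y hY a1 a2 => by
      obtain ⟨y, hy⟩ : K ∣ Y * (H - Y) := by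
        rw [← Int.natCast_dvd_natCast, Nat.cast_mul, Nat.cast_sub hY, ← neg_sub, mul_neg, dvd_neg]
        exact a1
      refine key.2 ⟨Y, y, Y / M, by omega, ?_, (Nat.div_le_self _ _).trans (by omega), ?_, ?_⟩
      · have : Y * (H - Y) ≤ K * K := Nat.mul_le_mul (by omega) (by omega)
        rw [hy] at this
        exact Nat.le_of_mul_le_mul_left this (by omega)
      · rw [← hy, ← Nat.mul_add, Nat.add_sub_cancel' hY, mul_comm]
      · have : K * τ ≡ Y [MOD M] := Nat.modEq_iff_dvd.2 (by exact_mod_cast a2)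
        rw [this]; exact (Nat.div_add_mod Y M).symm
    have hlM : (l : ℤ) ∣ M := by rw [← hMe]; exact_mod_cast dvd_pow_self l hm.ne'
    have hHc : (M : ℤ) ∣ K * (∑ j ∈ range n, c j : ℕ) - H := by
      have : H ≡ K * ∑ j ∈ range n, c j [MOD M] := by
        rw [hH, mul_sum]; exact Nat.ModEq.sum fun j hj => h3 j (mem_range.1 hj)
      exact_mod_cast Nat.modEq_iff_dvd.1 this
    have := split_pow hl m (A := Y - K * τ) (B := Y + K * τ - H)
      (by rw [← Nat.cast_pow, hMe, e1]; exact ⟨K * d, by ring⟩) fun h => h5 (by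
        have a1 : (l : ℤ) ∣ K * (2 * τ - (∑ j ∈ range n, c j : ℕ)) := by
          exact (congrArg _ (by ring)).mp (h.add (hlM.trans hHc)).neg_right
        refine ((Nat.prime_iff_prime_int.1 hl).dvd_or_dvd a1).resolve_left fun a2 => ?_
        have a3 := Nat.Coprime.coprime_dvd_left (Int.natCast_dvd_natCast.1 hlM) hM
        exact hl.coprime_iff_not_dvd.1 a3 (Int.natCast_dvd_natCast.1 a2))
    rw [← Nat.cast_pow, hMe] at this
    rcases this with h | h
    · exact fin Y hY ⟨_, e2⟩ h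
    · refine fin (H - Y) (by omega) ⟨_, by rw [Nat.cast_sub hY, ← e2]; ring⟩ ?_
      rw [Nat.cast_sub hY]
      exact (congrArg _ (by ring)).mp h.neg_right

/-- Parameters `(h, a, b)`: there is a root of size at most `h`. -/
def QY (p : Fin 3 → ℕ) : Prop := 1 ≤ p 0 ∧ 1 ≤ p 2 ∧
  ∃ s u : ℤ, |s| ≤ p 0 ∧ |u| ≤ p 0 ∧ s ^ 2 = p 1 + p 2 * u

/-- Parameters `(h, a, b)`: there is a root of size at most `1000 h`. -/
def QN (p : Fin 3 → ℕ) : Prop := 1 ≤ p 0 → 1 ≤ p 2 →
  ∃ s u : ℤ, |s| ≤ 1000 * p 0 ∧ s ^ 2 = p 1 + p 2 * u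

theorem sq_hard (L : List Bool → Bool) (hL : L ∈ N68a2faeb.NP) :
    ∃ P : List Bool → Fin 3 → ℕ, (∀ i, PT fun x => (P x i : ℤ)) ∧
      ∀ x, (L x = true → QY (P x)) ∧ (QN (P x) → L x = true) := by
  obtain ⟨n, c0, τ0, hn, hc0, hτ0, h⟩ := ss_hard L hL
  let q : List Bool → ℕ → ℕ := fun x j => pr (n x + 2) j
  let l : List Bool → ℕ := fun x => q x (n x + 1)
  let c : List Bool → ℕ → ℕ := fun x j => cond (decide (j = n x)) 1 (l x * c0 x j)
  let τ : List Bool → ℕ := fun x => l x * τ0 x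
  let e : List Bool → ℕ := fun x => sz ((∑ j ∈ range (n x + 1), c x j + τ x : ℕ) : ℤ)
  let M : List Bool → ℕ := fun x => l x ^ e x
  let N : List Bool → ℕ := fun x => sz ((4012 * (n x + 1) * M x : ℕ) : ℤ)
  let K : List Bool → ℕ := fun x => ∏ j ∈ range (n x + 1), q x j ^ N x
  let Kj : List Bool → ℕ → ℕ := fun x j =>
    ∏ i ∈ range (n x + 1), cond (decide (i = j)) 1 (q x i ^ N x)
  let r : List Bool → ℕ → ℕ := fun x j => c x j * q x j ^ N x % M x
  let m : List Bool → ℕ → ℕ := fun x j =>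
    cond (decide (r x j % q x j = 0)) (r x j + M x) (r x j)
  let H : List Bool → ℕ := fun x => ∑ j ∈ range (n x + 1), Kj x j * m x j
  let b : List Bool → ℕ := fun x => 4 * K x * M x
  let y : List Bool → ℕ := fun x => (2 * K x * τ x - H x : ℤ).natAbs ^ 2
  have qp : ∀ x j, (q x j).Prime := fun x j => pr_prime _ _
  have M0 : ∀ x, 0 < M x := fun x => pow_pos (qp x _).pos _
  have b0 : ∀ x, 0 < b x := fun x => Nat.mul_pos (Nat.mul_pos (by norm_num)
    (prod_pos fun j _ => pow_pos (qp x j).pos _)) (M0 x)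
  have hn1 : PT fun x => n x + 1 := by fun_prop
  have hp : PT fun p : List Bool × ℕ => q p.1 p.2 := by
    unfold q pr primesFor isPr; fun_prop
  have hpz := hp.natCast
  have hl : PT fun x => (l x : ℤ) :=
    hpz.comp (g := fun x => (x, n x + 1)) (by fun_prop)
  have hc : PT fun p : List Bool × ℕ => (c p.1 p.2 : ℤ) :=
    (PT.cond (c := fun p : List Bool × ℕ => decide (p.2 = n p.1)) (by fun_prop) (PT.const (1 : ℤ))
      ((hl.comp (g := Prod.fst) (by fun_prop)).intMul hc0)).of_eq fun p => by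
        simp only [c]; cases decide (p.2 = n p.1) <;> simp
  have hτ : PT fun x => (τ x : ℤ) := (hl.intMul hτ0).of_eq fun x => by simp [τ]
  have he : PT e := (((PT.sumRange (f := c) hn1 hc).intAdd hτ).of_eq fun x => by
    rw [← Nat.cast_add]).size
  have hM : PT fun x => (M x : ℤ) := (hl.intPow he).of_eq fun x => by simp [M]
  have hN : PT N := (PT.of_eq (f := fun x => (4012 : ℤ) * (n x + 1) * M x) (by fun_prop)
    fun x => by push_cast; rfl).size
  have hq : PT fun p : List Bool × ℕ => ((q p.1 p.2 ^ N p.1 : ℕ) : ℤ) :=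
    (hpz.intPow (hN.comp (g := fun p : List Bool × ℕ => p.1) (by fun_prop))).of_eq fun p => by
      push_cast; rfl
  have hK : PT fun x => (K x : ℤ) := PT.prodRange (f := fun x j => q x j ^ N x) hn1 hq
  have hKj : PT fun p : List Bool × ℕ => (Kj p.1 p.2 : ℤ) := by
    refine PT.prodRange (by fun_prop) (PT.of_eq (f := fun p : (List Bool × ℕ) × ℕ =>
      cond (decide (p.2 = p.1.2)) (1 : ℤ) ((q p.1.1 p.2 ^ N p.1.1 : ℕ) : ℤ))
      (PT.cond (by fun_prop) (PT.const _)
        (hq.comp (g := fun p : (List Bool × ℕ) × ℕ => (p.1.1, p.2)) (by fun_prop))) fun p => ?_)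
    cases decide (p.2 = p.1.2) <;> rfl
  have hM' : PT fun p : List Bool × ℕ => (M p.1 : ℤ) := hM.comp (by fun_prop)
  have hr : PT fun p : List Bool × ℕ => (r p.1 p.2 : ℤ) :=
    (PT.divMod (f := fun p : List Bool × ℕ => c p.1 p.2 * q p.1 p.2 ^ N p.1)
      ((hc.intMul hq).of_eq fun p => by push_cast; rfl) hM' fun p => M0 _).snd
  have hm : PT fun p : List Bool × ℕ => (m p.1 p.2 : ℤ) := by
    have h1 := (PT.divMod hr hpz fun p => (qp _ _).pos).snd
    refine (PT.cond (h1.intEq (PT.const 0)) (hr.intAdd hM') hr).of_eq fun p => ?_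
    simp only [m, Nat.cast_eq_zero]
    cases decide (r p.1 p.2 % q p.1 p.2 = 0) <;> simp
  have hH : PT fun x => (H x : ℤ) := PT.sumRange (f := fun x j => Kj x j * m x j) hn1
    ((hKj.intMul hm).of_eq fun p => by push_cast; rfl)
  have hb : PT fun x => (b x : ℤ) :=
    PT.of_eq (f := fun x => (4 : ℤ) * K x * M x) (by fun_prop) fun x => by simp [b]
  have hy' : ∀ x, (y x : ℤ) = (2 * K x * τ x - H x) ^ 2 := fun x => by simp [y]
  have hy : PT fun x => (y x : ℤ) :=
    PT.of_eq (f := fun x => ((2 : ℤ) * K x * τ x - H x) * (2 * K x * τ x - H x)) (by fun_prop)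
      fun x => by rw [hy', sq]
  refine ⟨fun x => ![H x + 1, y x % b x, b x], fun i => ?_, fun x => ?_⟩
  · fin_cases i
    · exact (hH.intAdd (PT.const 1)).of_eq fun x => by simp
    · exact (PT.divMod hy hb b0).snd
    · exact hb
  have hinj : ∀ i < n x + 2, ∀ j < n x + 2, q x i = q x j → i = j := fun i hi j hj => pr_inj hi hj
  have hcop : ∀ j < n x + 1, (M x).Coprime (q x j) := fun j hj => Nat.Coprime.pow_left _
    ((Nat.coprime_primes (qp _ _) (qp _ _)).2 fun e => by
      have := hinj _ (by omega) _ (by omega) e; omega)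
  have hKK : ∀ j < n x + 1, K x = Kj x j * q x j ^ N x := fun j hj => by
    simp only [K, Kj]
    rw [← mul_prod_erase _ _ (mem_range.2 hj), ← mul_prod_erase _ _ (mem_range.2 hj), mul_comm]
    simp only [decide_true, cond_true, one_mul]
    congr 1
    exact prod_congr rfl fun i hi => by rw [decide_eq_false (ne_of_mem_erase hi)]; rfl
  have two : ∀ j (z : ℕ), z < q x j ^ sz (z : ℤ) := fun j z =>
    (Nat.lt_size_self _).trans_le ((Nat.pow_le_pow_left (qp x j).two_le _).trans
      (Nat.pow_le_pow_right (qp _ _).pos (by simp only [sz_int, Int.natAbs_natCast]; omega)))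
  have Kj0 : ∀ j, 0 < Kj x j := fun j => prod_pos fun i _ => by
    cases decide (i = j)
    · exact pow_pos (qp _ _).pos _
    · exact Nat.one_pos
  have hs : ∀ z : ℕ → Bool, ∑ j ∈ range (n x + 1), (if z j then c x j else 0) =
      l x * ∑ j ∈ range (n x), (if z j then c0 x j else 0) + if z (n x) then 1 else 0 := fun z => by
    rw [sum_range_succ, mul_sum]
    congr 1
    · refine sum_congr rfl fun j hj => ?_
      simp only [c, decide_eq_false (mem_range.1 hj).ne, cond_false]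
      split_ifs <;> rfl
    · simp [c]
  have gap : (1000 + 3) * (H x + 1) ≤ K x := by
    have a1 : (n x + 1) * (2006 * H x) < (n x + 1) * K x := by
      rw [← mul_assoc, mul_sum]
      refine (sum_lt_sum_of_nonempty (g := fun _ => K x) nonempty_range_add_one
        fun j hj => ?_).trans_eq (by simp)
      have e1 : m x j < 2 * M x := by
        have : r x j < M x := Nat.mod_lt _ (M0 x)
        simp only [m]
        cases decide (r x j % q x j = 0) <;> simp <;> omega
      have e2 : 4012 * (n x + 1) * M x < q x j ^ N x := two j _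
      rw [hKK j (mem_range.1 hj), mul_left_comm]
      refine Nat.mul_lt_mul_of_pos_left ?_ (Kj0 j)
      nlinarith
    have a2 := Nat.lt_of_mul_lt_mul_left a1
    have a3 : 4012 * (n x + 1) * M x < q x 0 ^ N x := two 0 _
    have a4 := Nat.le_mul_of_pos_left (q x 0 ^ N x) (Kj0 0)
    rw [← hKK 0 (by omega)] at a4
    have a5 := Nat.mul_pos (Nat.succ_pos (n x)) (M0 x)
    rw [mul_assoc] at a3
    simp only [Nat.succ_eq_add_one] at a5
    omega
  obtain ⟨k1, k2⟩ := manders_sq (n x + 1) (N x) (e x) (l x) (τ x) 1000 (K x) (H x) (c x) (q x)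
    (fun j => Kj x j * m x j) (qp x) (qp _ _) (fun i hi j hj => hinj i (by omega) j (by omega))
    (by simp [N]) (by simp [e]) rfl rfl
    (Nat.Coprime.prod_right fun j hj => (hcop j (mem_range.1 hj)).pow_right _) (two _ _)
    (fun i hi j _ hij => by
      have := dvd_prod_of_mem (fun i => cond (decide (i = j)) 1 (q x i ^ N x)) (mem_range.2 hi)
      rw [decide_eq_false hij] at this
      exact this.mul_right _)
    (fun j hj hd => by
      rcases ((qp _ _).dvd_mul).1 hd with h1 | h1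
      · obtain ⟨i, hi, h2⟩ := ((qp _ _).prime.dvd_finsetProd_iff _).1 h1
        by_cases hij : i = j
        · rw [decide_eq_true hij] at h2
          exact (qp _ _).not_dvd_one h2
        · rw [decide_eq_false hij] at h2
          exact hij (hinj i (by have := mem_range.1 hi; omega) j (by omega)
            ((Nat.prime_dvd_prime_iff_eq (qp _ _) (qp _ _)).1
              ((qp _ _).dvd_of_dvd_pow h2)).symm)
      · simp only [m] at h1
        by_cases h2 : r x j % q x j = 0
        · rw [decide_eq_true h2] at h1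
          exact ((qp _ _).coprime_iff_not_dvd.1 (hcop j hj).symm)
            ((Nat.dvd_add_right (Nat.dvd_of_mod_eq_zero h2)).1 h1)
        · rw [decide_eq_false h2] at h1
          exact h2 (Nat.mod_eq_zero_of_dvd h1))
    (fun j hj => by
      rw [hKK j hj, mul_assoc, mul_comm _ (c x j)]
      refine Nat.ModEq.mul_left _ ?_
      simp only [m]
      cases decide (r x j % q x j = 0)
      · exact Nat.mod_modEq _ _
      · simp [r, M, Nat.ModEq]) gap
    (fun hd => by
      have a1 := hs fun _ => true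
      simp only [if_true] at a1
      rw [a1] at hd
      refine (Nat.prime_iff_prime_int.1 (qp x (n x + 1))).not_dvd_one ?_
      have a2 : (l x : ℤ) ∣ l x * (2 * τ0 x - (∑ j ∈ range (n x), c0 x j : ℕ)) := dvd_mul_right _ _
      convert a2.sub hd using 1
      simp only [τ]; push_cast; ring)
  have hd := congrArg (Nat.cast (R := ℤ)) (Nat.div_add_mod (y x) (b x))
  rw [Nat.cast_add, Nat.cast_mul, hy'] at hd
  have hlt : ((y x % b x : ℕ) : ℤ) < b x := by exact_mod_cast Nat.mod_lt _ (b0 x)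
  have hb1 : (0 : ℤ) < b x := by exact_mod_cast b0 x
  constructor
  · intro hx
    obtain ⟨z, hz⟩ := (h x).1 hx
    obtain ⟨s, s1, d, s2⟩ := k1 ⟨fun j => z j && decide (j < n x), by
      rw [hs, ← show l x * τ0 x = τ x from rfl, ← hz]
      simp only [lt_self_iff_false, decide_false, Bool.and_false, Bool.false_eq_true, if_false,
        add_zero]
      exact congrArg _ (sum_congr rfl fun j hj => by simp [mem_range.1 hj])⟩
    have s3 : s ^ 2 = (y x % b x : ℕ) + b x * (d + (y x / b x : ℕ)) := by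
      linear_combination s2 - hd
    refine ⟨by simp, b0 x, s, _, by simp; omega, ?_, s3⟩
    have hHb : (H x : ℤ) ≤ b x := by
      have := Nat.le_mul_of_pos_right (4 * K x) (M0 x)
      simp only [b]; omega
    have s4 : s ^ 2 ≤ H x * b x := by
      have := abs_le.1 s1
      nlinarith
    generalize d + (y x / b x : ℕ) = u at s3
    have : (0 : ℤ) ≤ (y x % b x : ℕ) := by positivity
    simp only [Matrix.cons_val_zero, abs_le]
    push_cast
    constructor <;> nlinarith [sq_nonneg s]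
  · intro hx
    obtain ⟨s, u, s1, s2⟩ := hx (Nat.succ_pos _) (b0 x)
    obtain ⟨z, hz⟩ := k2 ⟨s, by simpa using s1, u - (y x / b x : ℕ), by
      have s3 : s ^ 2 = (y x % b x : ℕ) + b x * u := s2
      linear_combination s3 + hd⟩
    rw [hs] at hz
    refine (h x).2 ⟨z, ?_⟩
    have l2 : 2 ≤ l x := (qp _ _).two_le
    simp only [τ] at hz
    split_ifs at hz
    · have := (Nat.dvd_add_right (dvd_mul_right _ _)).1 (hz ▸ dvd_mul_right (l x) (τ0 x))
      exact absurd (Nat.le_of_dvd one_pos this) (by omega)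
    · exact Nat.eq_of_mul_eq_mul_left (show 0 < l x by omega) (by simpa using hz)

end Pool.Agent.P.MP_26ce3f_co
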