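import Pool.Agent.P.MP_26ce3f_co.All.Two

/-! Two letters: from degree `t` to degree `t + 1`, a huge block serving as a separator. -/

namespace Pool.Agent.P.MP_26ce3f_co

open Ser List

variable {α ι : Type}

/-- A bound for the coefficients up to degree `s`. -/
def Bnd (s : ℕ) (A : ℤ) (f : Ser α) : Prop := ∀ u : List α, u.length ≤ s → |f u| ≤ A

theorem Bnd.mul {s : ℕ} {A B : ℤ} {f g : Ser α} (hf : Bnd s A f) (hg : Bnd s B g) :
    Bnd s ((s + 1) * (A * B)) (f * g) := by
  have h0 : 0 ≤ A * B := (abs_nonneg _).trans (absmul (hf [] (by simp)) (hg [] (by simp)))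
  suffices h : ∀ u : List α, u.length ≤ s → |(f * g) u| ≤ (u.length + 1) * (A * B) from
    fun u hu => (h u hu).trans (mul_le_mul_of_nonneg_right (by omega) h0)
  intro u hu
  induction u generalizing f s with
  | nil => simpa using absmul (hf [] hu) (hg [] hu)
  | cons a u ih =>
    obtain ⟨s, rfl⟩ : ∃ r, s = r + 1 := ⟨s - 1, by simp at hu; omega⟩
    have h1 := ih (s := s) (f := der a f) (fun v hv => hf (a :: v) (by simpa using hv))
      (fun v hv => hg v (by omega)) (by simpa using hu)
    have h2 := absmul (hf [] (by simp)) (hg _ hu)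
    rw [mul_cons, length_cons]
    push_cast
    linarith [abs_add_le (f [] * g (a :: u)) ((der a f * g) u)]

theorem exists_bound [Fintype α] {g : (ι → ℕ) → Ser α} (hg : NiceS g) (s : ℕ) :
    ∃ N : (ι → ℕ) → ℕ, (Nice fun p => (N p : ℤ)) ∧ ∀ p, Bnd s (N p) (g p) := by
  let S := (List.finite_length_le α s).toFinset
  have e : ∀ p, ((∑ u ∈ S, g p u * g p u).toNat : ℤ) = ∑ u ∈ S, g p u * g p u := fun p =>
    Int.toNat_of_nonneg (Finset.sum_nonneg fun _ _ => mul_self_nonneg _)
  refine ⟨_, (Nice.sum S fun u _ => (hg u).mul (hg u)).of_eq fun p => (e p).symm,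
    fun p u hu => ?_⟩
  rw [e]
  refine (le_mul_me _).trans ((abs_mul_abs_self _).trans_le ?_)
  exact Finset.single_le_sum (f := fun u => g p u * g p u) (fun _ _ => mul_self_nonneg _)
    (by simpa [S] using hu)

theorem radix (P D s : ℕ) (hP : (D + 2) * s ≤ P) (c : ℕ → ℤ) (hc : ∀ i < s, |c i| ≤ D)
    (h : ∑ i ∈ Finset.range s, (P.choose i : ℤ) * c i = 0) : ∀ i < s, c i = 0 := by
  have small : ∀ j < s, D * ∑ i ∈ Finset.range j, P.choose i < P.choose j := fun j hj => by
    induction j with
    | zero => simp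
    | succ j ih =>
      have h1 := Nat.choose_succ_right_eq P j
      have h2 : (D + 1) * (j + 1) ≤ P - j := by
        have := Nat.mul_le_mul_left (D + 2) hj.le
        rw [show (D + 2) * (j + 1) = (D + 1) * (j + 1) + j + 1 by ring] at this
        omega
      have h3 : P.choose j * (D + 1) ≤ P.choose (j + 1) := Nat.le_of_mul_le_mul_right
        (by rw [h1, mul_assoc]; exact Nat.mul_le_mul_left _ h2) j.succ_pos
      have := ih (by omega)
      rw [Finset.sum_range_succ]
      linarith
  induction s with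
  | zero => simp
  | succ s ih =>
    have h1 := small s (by omega)
    rw [Finset.sum_range_succ] at h
    have h2 : c s = 0 := abs_nonpos_iff.1 (abs_cancel (M := P.choose s) (by omega) (by
      rw [eq_neg_of_add_eq_zero_right h, abs_neg, zero_add, mul_one]
      refine (Finset.abs_sum_le_sum_abs _ _).trans_lt (lt_of_le_of_lt ?_ (Int.ofNat_lt.2 h1))
      push_cast
      rw [Finset.mul_sum]
      refine Finset.sum_le_sum fun i hi => ?_
      rw [mul_comm (D : ℤ)]
      exact absmul (abs_of_nonneg (by positivity)).le (hc i (by simp at hi; omega))))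
    rw [h2, mul_zero, add_zero] at h
    intro i hi
    rcases Nat.lt_succ_iff_lt_or_eq.1 hi with hi | rfl
    exacts [ih (by nlinarith) (fun i hi => hc i (by omega)) h (fun j hj => small j (by omega)) i hi,
      h2]

variable [DecidableEq α] {a b : α}

theorem bnd_ws {w : List α} {l : ℕ} (h : w.length ≤ l) (s : ℕ) :
    Bnd s ((l + 1) ^ s : ℕ) (ws w) := fun u hu => by
  rw [ws_apply, Nat.abs_cast, Nat.cast_le]
  exact (occ_le_pow w u).trans ((Nat.pow_le_pow_left (by omega) _).trans
    (Nat.pow_le_pow_right l.succ_pos hu))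

theorem ws_out {w u : List α} (h : a ∈ u) (h' : a ∉ w) : ws w u = 0 := by
  rw [ws_apply, Nat.cast_eq_zero]
  by_contra h0
  exact h' (((occ_pos_iff _ _).1 (Nat.pos_of_ne_zero h0)).subset h)

theorem expand (b : α) (P s : ℕ) : Eqv s (ws (replicate P b))
    (∑ i ∈ Finset.range (s + 1), (P.choose i : ℤ) • (ws [b] - 1) ^ i) := by
  intro u hu
  have hv : Van 1 (ws [b] - 1) := fun v hv => by
    have : v = [] := List.length_eq_zero_iff.1 (by omega)
    subst this; simp
  have e : ws [b] ^ P = (ws [b] - 1 + 1) ^ P := by rw [sub_add_cancel]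
  rw [ws_replicate, e, (Commute.one_right (ws [b] - 1)).add_pow, sum_apply, sum_apply]
  simp only [one_pow, mul_one, mul_natCast, zsmul_apply]
  have s1 : Finset.range (s + 1) ⊆ Finset.range (P + s + 1) :=
    Finset.range_subset_range.2 (by omega)
  have s2 : Finset.range (P + 1) ⊆ Finset.range (P + s + 1) :=
    Finset.range_subset_range.2 (by omega)
  rw [Finset.sum_subset s1, Finset.sum_subset s2]
  · intro m _ hm
    rw [Nat.choose_eq_zero_of_lt (by simpa using hm)]; simp
  · intro m _ hm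
    rw [hv.pow m u (by simp at hm; omega)]; simp

theorem separate {s A P : ℕ} {f k f' k' : Ser α} (hf : Bnd s A f) (hk : Bnd s A k)
    (hf' : Bnd s A f') (hk' : Bnd s A k') (hP : (2 * ((s + 1) ^ (s + 2) * (A * A)) + 2) * (s + 1) ≤ P)
    (h : Eqv s (f * ws (replicate P b) * k) (f' * ws (replicate P b) * k')) (i : ℕ) (hi : i ≤ s) :
    Eqv s (f * (ws [b] - 1) ^ i * k) (f' * (ws [b] - 1) ^ i * k') := by
  have b1 : Bnd s 1 (ws [b] - 1) := fun u hu => by
    cases u with
    | nil => simp
    | cons c u => simpa [ws_apply] using occ_le_pow [b] (c :: u)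
  have b2 : ∀ j : ℕ, Bnd s ((s + 1) ^ j) ((ws [b] - 1) ^ j) := fun j => by
    induction j with
    | zero => intro u _; cases u <;> simp
    | succ j ih => rw [pow_succ', pow_succ]; simpa using ih.mul b1
  have b3 : ∀ {f k : Ser α}, Bnd s A f → Bnd s A k → ∀ j ≤ s,
      Bnd s ((s + 1) ^ (s + 2) * (A * A)) (f * (ws [b] - 1) ^ j * k) := fun hf hk j hj u hu => by
    refine (((hf.mul (b2 j)).mul hk) u hu).trans ?_
    have : ((s : ℤ) + 1) ^ j ≤ (s + 1) ^ s := pow_le_pow_right₀ (by omega) hj
    calc _ = ((s : ℤ) + 1) ^ j * ((s + 1) ^ 2 * (A * A)) := by ring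
      _ ≤ ((s : ℤ) + 1) ^ s * ((s + 1) ^ 2 * (A * A)) :=
        mul_le_mul_of_nonneg_right this (by positivity)
      _ = _ := by ring
  have e : ∀ f k : Ser α, Eqv s (f * ws (replicate P b) * k)
      (∑ i ∈ Finset.range (s + 1), (P.choose i : ℤ) • (f * (ws [b] - 1) ^ i * k)) := fun f k => by
    have := ((Eqv.refl s f).mul (expand b P s)).mul (Eqv.refl s k)
    simpa only [Finset.mul_sum, Finset.sum_mul, mul_smul_comm, smul_mul_assoc] using this
  intro u hu
  have h1 := ((e f k).symm.trans (h.trans (e f' k'))) u hu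
  simp only [Ser.sum_apply, zsmul_apply] at h1
  refine sub_eq_zero.1 (radix P _ (s + 1) hP
    (fun i => (f * (ws [b] - 1) ^ i * k) u - (f' * (ws [b] - 1) ^ i * k') u) (fun j hj => ?_)
    (by simp only [mul_sub, Finset.sum_sub_distrib, h1, sub_self]) i (by omega))
  have a1 := b3 hf hk j (by omega) u hu
  have a2 := b3 hf' hk' j (by omega) u hu
  rw [abs_le] at a1 a2 ⊢
  push_cast
  constructor <;> linarith

theorem comm_zero (hab : a ≠ b) {t : ℕ} {h : Ser α}
    (e : Eqv (t + 1) (h * (ws [b] - 1)) ((ws [b] - 1) * h)) {u : List α} (hu : u.length ≤ t)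
    (ha : a ∈ u) : h u = 0 := by
  have r : ∀ (u : List α) (f : Ser α), (f * (ws [b] - 1)) (u ++ [b]) = f u := fun u => by
    induction u with
    | nil => intro f; simp [mul_cons, ws_apply, occ_cons]
    | cons c u ih =>
      intro f
      have : ws [b] (c :: (u ++ [b])) = 0 := by cases u <;> simp [ws_apply, occ_cons]
      rw [cons_append, mul_cons, ih]; simp [this]
  have l : ∀ (c : α) (u : List α), ((ws [b] - 1) * h) (c :: u) = if b = c then h u else 0 :=
    fun c u => by
      have : der c (ws [b] - 1) = der c (ws [b]) := by ext v; simp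
      rw [mul_cons, this, der_ws_single]
      split_ifs <;> simp
  obtain ⟨x, v, rfl⟩ := append_of_mem ha
  clear ha
  induction x generalizing v with
  | nil => rw [← r _ h, e _ (by simpa using hu), nil_append, cons_append, l, if_neg hab.symm]
  | cons c x ih =>
    rw [← r _ h, e _ (by simp at hu ⊢; omega), cons_append, cons_append, l, append_assoc, cons_append,
      ih _ (by simp at hu ⊢; omega), ite_self]

theorem eq_rep (hall : ∀ c, c = a ∨ c = b) {w : List α} (h : a ∉ w) :
    w = replicate (w.count b) b := by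
  have : ∀ c ∈ w, c = b := fun c hc => (hall c).resolve_left fun e => h (e ▸ hc)
  rw [count_eq_length.2 fun c hc => (this c hc).symm]
  exact eq_replicate_of_mem this

theorem strip (hab : a ≠ b) (hall : ∀ c, c = a ∨ c = b) {t e : ℕ} (ht : 1 ≤ t) {G : Ser α}
    (hG : Fr G) {L R Q : List α} (hL : (L.count b : ℤ) = G [b] + e)
    (h0 : Eqv (t + 1) (ws L * ws R) (G * ws Q))
    (h1 : Eqv (t + 1) (ws L * (ws [b] - 1) * ws R) (G * (ws [b] - 1) * ws Q)) :
    Eqv t (ws L) (G * ws (replicate e b)) := by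
  obtain ⟨G', g1, g2⟩ := exists_inv' hG.one
  obtain ⟨R', -, r2⟩ := exists_inv' (ws_one R)
  have a0 := ((Eqv.refl _ G').mul h0).mul (Eqv.refl _ R')
  have a1 := ((Eqv.refl _ G').mul h1).mul (Eqv.refl _ R')
  simp only [← mul_assoc, g1, one_mul] at a0 a1
  rw [mul_assoc _ _ R', r2, mul_one] at a0 a1
  rw [mul_assoc _ (ws Q)] at a1
  have z := fun u => comm_zero hab (a1.trans ((Eqv.refl _ _).mul a0.symm)) (u := u)
  have hl : G * (G' * ws L) = ws L := by rw [← mul_assoc, g2, one_mul]
  have o : (G' * ws L) [] = 1 := by simpa [hG.one] using congrFun hl []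
  have hF := hG.mul (Fr.ws (replicate e b))
  have na : a ∉ replicate e b := fun h => hab (eq_of_mem_replicate h)
  suffices h : ∀ j, 1 ≤ j → j ≤ t → Eqv j (ws L) (G * ws (replicate e b)) from h t ht le_rfl
  intro j hj
  induction j, hj using Nat.le_induction with
  | base =>
    refine fun _ => eqv_one (by simp [hG.one]) fun c => ?_
    rcases hall c with rfl | rfl
    · rw [← hl]
      simp only [mul_cons, mul_nil, z [c] ht (by simp), o, ws_out (u := [c]) (by simp) na, ws_one]
    · simp [mul_cons, hG.one, ws_apply, occ_single, hL, add_comm]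
  | succ j hj ih =>
    intro hjt
    have ih := ih (by omega)
    refine fr_step hF ih (fun u => a ∈ u) (fun u hu hlen => ?_) fun U V h2 h3 => ?_
    · have b1 := (Eqv.refl j G').mul ih
      rw [← mul_assoc, g1, one_mul] at b1
      have b2 := ((Sh.refl j hG.one).mul (Sh.of_eqv (ws_one _) b1)).top u hlen
      rw [hl] at b2
      simp [b2, z u (by omega) hu, ws_out hu na]
    · refine (Sh.of_eqv (ws_one _) h2).eqv_succ fun u hu => ?_
      by_cases ha : a ∈ u
      · simp [ws_apply, h3 u ha hu]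
      · rw [eq_rep hall ha]
        simp [ws_apply, occ_replicate, h2.count hj b]

theorem tail_split (hab : a ≠ b) (hall : ∀ c, c = a ∨ c = b) (w : List α) :
    ∃ R f, w = R ++ replicate f a ∧ R.count a ≤ occ w [a, b] := by
  induction w with
  | nil => exact ⟨[], 0, rfl, le_rfl⟩
  | cons d w ih =>
    obtain ⟨R, f, h1, h2⟩ := ih
    by_cases hb : b ∈ d :: w
    · refine ⟨d :: R, f, by rw [h1]; rfl, ?_⟩
      rw [occ2_cons, count_cons]
      by_cases e : d = a
      · have := count_pos_iff.2 ((mem_cons.1 hb).resolve_left (e ▸ hab.symm))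
        simp [e]; omega
      · simp [e, h2]
    · exact ⟨[], _, eq_rep (fun c => (hall c).symm) hb, Nat.zero_le _⟩

theorem length_bin (hab : a ≠ b) (hall : ∀ c, c = a ∨ c = b) (w : List α) :
    w.length = w.count a + w.count b := by
  induction w with
  | nil => rfl
  | cons d w ih => rcases hall d with rfl | rfl <;> simp [ih, hab, hab.symm] <;> omega

theorem cut_sound (hab : a ≠ b) (hall : ∀ c, c = a ∨ c = b) {t N P e : ℕ} (ht : 2 ≤ t) {G : Ser α}
    (hG : Fr G) {Q w : List α} (b1 : Bnd (t + 1) N G) (b2 : Bnd (t + 1) N (ws Q))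
    (b3 : Q.length ≤ N) (hN : 1 ≤ N)
    (hP : 1000 * N + (2 * ((t + 1 + 1) ^ (t + 1 + 2) *
      ((300 * N + 1) ^ (t + 1) * (300 * N + 1) ^ (t + 1))) + 2) * (t + 1 + 1) ≤ P)
    (h : Eqv (t + 1) (ws w) (G * ws (replicate P b ++ Q) * ws (replicate e a))) :
    ∃ e L, Eqv t (ws L) (G * ws (replicate e b)) := by
  have za : ∀ u, b ∈ u → ws (replicate e a) u = 0 := fun u hu =>
    ws_out hu fun h => hab (eq_of_mem_replicate h).symm
  have zb : ∀ u, a ∈ u → ws (replicate P b) u = 0 := fun u hu =>
    ws_out hu fun h => hab (eq_of_mem_replicate h)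
  have c1 := h [a] (by simp)
  have c2 := h [b] (by simp)
  have c3 := h [a, b] (by simp; omega)
  have c4 := h [b, a, b] (by simp; omega)
  simp only [ws_append, mul_cons, mul_nil, der_apply, der_mul, add_apply, zsmul_apply, ws_one,
    hG.one, za [b] (by simp), za [a, b] (by simp), za [b, a, b] (by simp), zb [a] (by simp),
    zb [a, b] (by simp), zb [b, a] (by simp), zb [b, a, b] (by simp)] at c1 c2 c3 c4
  simp only [ws_apply, occ_single, count_replicate_self] at c1 c2 c3 c4
  have g1 := b1 [a] (by simp)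
  have g2 := b1 [b] (by simp)
  have g3 := abs_le.1 (b1 [a, b] (by simp; omega))
  have g4 := b1 [b, a] (by simp; omega)
  have g5 := abs_le.1 (b1 [b, a, b] (by simp; omega))
  have q1 := b2 [a] (by simp)
  have q2 := b2 [b] (by simp)
  have q3 := b2 [a, b] (by simp; omega)
  have q4 := b2 [b, a, b] (by simp; omega)
  simp only [ws_apply, occ_single] at q1 q2 q3 q4
  have hP' : |(P : ℤ)| ≤ P := (Nat.abs_cast P).le
  have hP1 : 1000 * N ≤ P := le_of_add_le_left hP
  have n1 : (N : ℤ) * (1000 * N) ≤ N * P := mul_le_mul_of_nonneg_left (by omega) (by omega)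
  have n2 := le_mul_me (N : ℤ)
  have d3 : occ w [a, b] ≤ 4 * (N * P) := by
    zify
    linarith [abs_le.1 (absmul g1 hP'), abs_le.1 (absmul g1 q2), abs_le.1 q3]
  have d4 : occ w [b, a, b] ≤ 6 * (N * P) := by
    zify
    linarith [abs_le.1 (absmul g4 hP'), abs_le.1 (absmul g4 q2), abs_le.1 (absmul g2 q3),
      abs_le.1 (absmul hP' q3), abs_le.1 q4]
  clear c3 c4
  rw [abs_le] at g1 g2 q1 q2
  obtain ⟨L, S, rfl, hL⟩ := exists_cut b w (100 * N) (by omega)
  rw [count_append] at c1 c2
  obtain ⟨M, R, rfl, hM⟩ := exists_cut b S (S.count b - 100 * N) (by omega)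
  rw [count_append] at c1 c2 hM
  have hR : R.count b = 100 * N := by omega
  have hM2 : P ≤ 2 * M.count b := by omega
  have half : ∀ x c : ℕ, x * M.count b ≤ c * (N * P) → x ≤ 2 * c * N := fun x c hx =>
    Nat.le_of_mul_le_mul_right (by nlinarith [Nat.mul_le_mul_left x hM2]) (show 0 < P by omega)
  have hMa : a ∉ M := fun hm => by
    obtain ⟨X, Y, rfl⟩ := append_of_mem hm
    have := half (100 * N) 6 (by
      rw [append_assoc, ← append_assoc L, occ3_append, cons_append, occ2_cons, if_pos rfl] at d4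
      simp only [count_append, count_cons_of_ne hab, hL, hR] at d4 ⊢
      have : (100 * N + X.count b) * (occ (Y ++ R) [a, b] + (Y.count b + 100 * N)) ≤
        6 * (N * P) := by omega
      nlinarith)
    omega
  have hLa := half (L.count a) 4 (by
    rw [occ2_append, count_append] at d3
    have : L.count a * (M.count b + R.count b) ≤ 4 * (N * P) := by omega
    nlinarith)
  have hRa := half (occ R [a, b]) 6 (by
    rw [← append_assoc, occ3_append, count_append] at d4
    have : (L.count b + M.count b) * occ R [a, b] ≤ 6 * (N * P) := by omega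
    nlinarith)
  obtain ⟨R, f, rfl, hf⟩ := tail_split hab hall R
  rw [count_eq_zero.2 hMa] at c1
  simp only [count_append, count_replicate, beq_iff_eq, if_true, if_neg hab] at c1 hR c2
  obtain ⟨j, e, f, rfl, rfl, k1, k2⟩ : ∃ j e' f', e = e' + j ∧ f = f' + j ∧ e' ≤ 21 * N ∧
      f' ≤ 2 * N := ⟨min e f, e - min e f, f - min e f, by omega⟩
  obtain ⟨d, hd⟩ : ∃ d, P = M.count b + d := Nat.exists_eq_add_of_le (by omega)
  obtain ⟨I, -, hI⟩ := exists_inv' (ws_one (replicate j a))
  have h2 := h.mul (Eqv.refl _ I)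
  rw [eq_rep hall hMa, hd] at h2
  simp only [replicate_add, ws_append, mul_assoc, hI, mul_one] at h2
  rw [← ws_append R, ← ws_append Q, ← ws_append (replicate d b), ← mul_assoc, ← mul_assoc] at h2
  have s := separate (A := (300 * N + 1) ^ (t + 1))
    (bnd_ws (by rw [length_bin hab hall]; omega) _)
    (bnd_ws (by rw [length_append, length_bin hab hall, length_replicate]; omega) _)
    (fun u hu => (b1 u hu).trans (Nat.cast_le.2 (le_trans (by omega)
      (Nat.le_self_pow (by omega) (300 * N + 1)))))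
    (bnd_ws (by simp; omega) _) (by omega) h2
  refine ⟨(100 * N - G [b]).toNat, L, strip hab hall (by omega) hG (by omega)
    (by simpa using s 0 (by omega)) (by simpa using s 1 (by omega))⟩

theorem Rob.succ [Fintype α] (hab : a ≠ b) (hall : ∀ c, c = a ∨ c = b) {φ ψ : (ι → ℕ) → Prop}
    {t : ℕ} (ht : 2 ≤ t) (h : Rob φ ψ t b) : Rob φ ψ (t + 1) a := by
  obtain ⟨g, hg, h⟩ := h
  obtain ⟨Q0, hQN, hQ⟩ := absorb (α := α) t
  obtain ⟨N1, n1, n1'⟩ := exists_bound hg.nice (t + 1)
  let D : (ι → ℕ) → ℕ := fun p => (2 * N1 p + 1) ^ (t + 1) + N1 p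
  have hD : NiceS fun p => ws (Q0 (D p)) := hQN D
    ((((((Nice.const 2).mul n1).add (Nice.const 1)).pow (t + 1)).add n1).of_eq fun p => by simp [D])
  obtain ⟨N2, n2, n2'⟩ := exists_bound hD (t + 1)
  let N : (ι → ℕ) → ℕ := fun p => N1 p + 2 * N2 p + 1
  have hN : Nice fun p => (N p : ℤ) :=
    ((n1.add ((Nice.const 2).mul n2)).add (Nice.const 1)).of_eq fun p => by simp [N]
  let P : (ι → ℕ) → ℕ := fun p => 1000 * N p + (2 * ((t + 1 + 1) ^ (t + 1 + 2) *
    ((300 * N p + 1) ^ (t + 1) * (300 * N p + 1) ^ (t + 1))) + 2) * (t + 1 + 1)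
  have hP : Nice fun p => (P p : ℤ) := by
    simp only [P, Nat.cast_add, Nat.cast_mul, Nat.cast_pow]
    repeat' first
      | exact Nice.const _ | exact hN | apply Nice.add | apply Nice.mul | apply Nice.pow
  have len : ∀ (w : List α) (f : Ser α) (n : ℕ), Bnd (t + 1) n f → Eqv t (ws w) f →
      w.length ≤ 2 * n := fun w f n h1 h2 => by
    have a1 := abs_le.1 (h1 [a] (by simp))
    have a2 := abs_le.1 (h1 [b] (by simp))
    rw [← h2 _ (by simp; omega), ws_apply, occ_single] at a1 a2
    rw [length_bin hab hall]; omega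
  refine ⟨_, hg.mul (v := fun p => replicate (P p) b ++ Q0 (D p))
    (((NiceS.rep b hP).mul hD).of_eq fun p => (ws_append _ _).symm)
    fun p => by simp only [length_append, length_replicate, P, N]; omega,
    fun p => ⟨fun hp => ?_, fun e w hw => ?_⟩⟩
  · obtain ⟨w, hw⟩ := (h p).1 hp
    obtain ⟨U, V, s⟩ := fr_top (hg.fr p) hw
    obtain ⟨Q, hQ'⟩ := hQ (D p) V U s.eqv.symm fun u hu => by
      have a1 := abs_le.1 (n1' p u hu.le)
      have a2 := abs_le.1 (bnd_ws (len w _ _ (n1' p) hw) (t + 1) u hu.le)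
      rw [s.top u hu, sub_apply, abs_le]
      simp only [D]
      omega
    refine ⟨w ++ (replicate (P p) b ++ Q), ?_⟩
    simp only [ws_append]
    refine ((Sh.of_eqv (hg.fr p).one hw).mul ((Sh.refl t (ws_one _)).mul hQ')).eqv_succ
      fun u hu => ?_
    have := s.top u hu
    simp only [add_apply, zero_apply, sub_apply] at this ⊢
    omega
  · obtain ⟨e, L, hL⟩ := cut_sound hab hall (N := N p) ht (hg.fr p)
      (fun u hu => (n1' p u hu).trans (by simp only [N]; omega))
      (fun u hu => (n2' p u hu).trans (by simp only [N]; omega))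
      ((len _ _ _ (n2' p) (Eqv.refl _ _)).trans (by simp only [N]; omega))
      (by simp only [N]; omega) le_rfl hw
    exact (h p).2 e L hL

theorem rob_all {t : ℕ} (ht : 3 ≤ t) : ∃ b : Fin 2, Rob QY QN t b := by
  induction t, ht using Nat.le_induction with
  | base => exact ⟨1, rob23⟩
  | succ t ht ih =>
    obtain ⟨b, h⟩ := ih
    exact ⟨b + 1, h.succ (by clear h; revert b; decide) (by clear h; revert b; decide) (by omega)⟩

theorem all_hard {k t : ℕ} (hk : 1 ≤ k) (ht : 1 ≤ t) (h : ¬ (k = 1 ∨ t = 1 ∨ (k = 2 ∧ t = 2)))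
    (L : List Bool → Bool) (hL : L ∈ N68a2faeb.NP) : ∃ f : List Bool → List Bool,
      N68a2faeb.IsPolyTime f ∧ ∀ x, L x = specLang k t (f x) := by
  obtain ⟨P, hP, hP'⟩ := sq_hard L hL
  rcases Nat.lt_or_ge t 3 with h3 | h3
  · obtain rfl : t = 2 := by omega
    obtain ⟨g, h1, h2⟩ := good32
    exact h1.reduce ht (by simp; omega) hP fun x =>
      ⟨fun hx => (h2 _).1 ((hP' x).1 hx), fun ⟨w, hw⟩ => (hP' x).2 ((h2 _).2 w hw)⟩
  · obtain ⟨b, g, h1, h2⟩ := rob_all h3
    exact h1.reduce ht (by simp; omega) hP fun x => ⟨fun hx => (h2 _).1 ((hP' x).1 hx),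
      fun ⟨w, hw⟩ => (hP' x).2 ((h2 _).2 0 w (by simpa using hw))⟩

end Pool.Agent.P.MP_26ce3f_co
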