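import Pool.Agent.P.MP_26ce3f_co.All.Frame
import Pool.Agent.P.MP_26ce3f_co.All.MA

/-! Three letters, degree two: near-extremal words are rectangles. -/

namespace Pool.Agent.P.MP_26ce3f_co

open Ser List

theorem le_mul_me (x : ℤ) : x ≤ x * x := sq x ▸ Int.le_self_sq x

theorem absmul {a b A B : ℤ} (ha : |a| ≤ A) (hb : |b| ≤ B) : |a * b| ≤ A * B := by
  rw [abs_mul]; exact mul_le_mul ha hb (abs_nonneg _) ((abs_nonneg _).trans ha)

theorem abs_cancel {M y A : ℤ} (hM : 0 < M) (h : |M * y| < M * (A + 1)) : |y| ≤ A := by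
  rw [abs_mul, abs_of_pos hM] at h
  exact Int.lt_add_one_iff.1 (lt_of_mul_lt_mul_left h hM.le)

theorem geo3 (l : List (ℤ × ℤ)) (R Δ ω Θ p U D : ℤ) (hp : (l.map fun _ => (1 : ℤ)).sum = p)
    (hU : (l.map fun P => P.1).sum = U) (hD : (l.map fun P => P.2).sum = D)
    (hb : ∀ P ∈ l, 0 ≤ P.1 ∧ 0 ≤ P.2 ∧ P.2 ≤ R + 1 + Δ)
    (h2 : ∀ P ∈ l, ∀ Q ∈ l, (Q.1 ≤ P.1 ∧ Q.2 ≤ P.2 ∧ P.1 ≤ 2 * R + 1 ∧
      (2 * R + 1 - P.1) * P.2 + (P.1 - Q.1) * Q.2 ≤ (R + 1) ^ 2) ∨ (P.1 ≤ Q.1 ∧ P.2 ≤ Q.2 ∧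
      Q.1 ≤ 2 * R + 1 ∧ (2 * R + 1 - Q.1) * Q.2 + (Q.1 - P.1) * P.2 ≤ (R + 1) ^ 2))
    (hω : 0 < ω) (hΔ : 0 ≤ Δ) (hΔ' : Δ ≤ 8 * ω) (h3 : p * (R + 1 + Δ) - D ≤ p * ω)
    (h4 : D - U = p - Θ) (h5 : 0 ≤ Θ) (h6 : 2 * Θ < p) (h7 : 1000 * (ω * ω) + Θ ≤ R) :
    ∃ τ B, |τ| ≤ 8 * ω ∧ p - Θ ≤ B ∧ B ≤ p ∧ 0 ≤ U - (R + τ) * B ∧ U - (R + τ) * B ≤ Θ := by
  have lin : ∀ (f : ℤ × ℤ → ℤ) (x y z : ℤ), (l.map fun P => x * f P + y * P.1 + z * P.2).sum =
      x * (l.map f).sum + y * U + z * D := fun f x y z => by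
    rw [sum_map_add, sum_map_add, sum_map_mul_left, sum_map_mul_left, sum_map_mul_left, hU, hD]
  have pos : ∀ (f : ℤ × ℤ → ℤ) (x y z : ℤ), (∀ P ∈ l, 0 ≤ x * f P + y * P.1 + z * P.2) →
      0 ≤ x * (l.map f).sum + y * U + z * D := fun f x y z h => by
    rw [← lin]
    exact sum_nonneg (by simpa only [forall_mem_map] using h)
  have ωω : ω ≤ ω * ω := le_mul_me _
  obtain ⟨d, ⟨⟨i, N⟩, m1, m2, m3⟩, mx⟩ := Int.exists_greatest_of_bdd
    (P := fun d => ∃ P ∈ l, R + 1 + Δ - 8 * ω ≤ P.2 ∧ P.2 - P.1 = d)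
    ⟨R + 1 + Δ, by rintro _ ⟨P, h, -, rfl⟩; have := hb P h; omega⟩ (by
      by_contra hc
      have := pos (fun _ => 1) (R + 1 + Δ - 8 * ω) 0 (-1) fun P h => by
        by_contra h8
        exact hc ⟨_, P, h, by omega, rfl⟩
      rw [hp] at this
      nlinarith)
  obtain ⟨τ, rfl⟩ : ∃ τ, N = R + 1 + τ := ⟨N - R - 1, by ring⟩
  obtain rfl : i = R + 1 + τ - d := by simp only at m3; omega
  have b1 := hb _ m1
  simp only at m2 b1
  have t1 : |τ| ≤ 8 * ω := by rw [abs_le]; omega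
  have t2 := (le_abs_self _).trans (absmul t1 t1)
  have d1 : 1 ≤ d := by
    by_contra hd
    have := pos (fun _ => 1) ((R + 1 + Δ) * (3 - 2 * d) + 8 * ω * d) (8 * ω)
      (-(3 - 2 * d) - 8 * ω) fun ⟨i, N⟩ h => by
        have b2 := hb _ h
        simp only at b2 ⊢
        rcases le_or_gt (R + 1 + Δ - 8 * ω) N with c | c
        · have := mx _ ⟨_, h, c, rfl⟩
          simp only at this
          have a1 : 0 ≤ (R + 1 + Δ - N) * (3 - 2 * d) := mul_nonneg (by omega) (by omega)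
          have a2 : 0 ≤ ω * (d - (N - i)) := mul_nonneg hω.le (by omega)
          linarith
        have e : N - i ≤ 3 - d := by
          by_contra hc
          rcases h2 _ m1 _ h with e | e <;> simp only at e
          swap
          · omega
          have a1 : 0 ≤ (R + 1 + τ - d - i - (R + 1 + τ - N + 4 - 2 * d)) * N :=
            mul_nonneg (by omega) (by omega)
          have a2 : 0 ≤ (N - (4 - d)) * (R + 1 + τ - N - d) := mul_nonneg (by omega) (by omega)
          have a3 := mul_self_nonneg d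
          have := abs_le.1 t1
          linarith [e.2.2.2]
        have a1 : 0 ≤ (R + 1 + Δ - N - 8 * ω) * (3 - 2 * d) := mul_nonneg (by omega) (by omega)
        have a2 : 0 ≤ ω * (3 - d - (N - i)) := mul_nonneg hω.le (by omega)
        linarith
    rw [hp] at this
    have a1 : 0 ≤ (p * ω - (p * (R + 1 + Δ) - D)) * (3 - 2 * d) := mul_nonneg (by omega) (by omega)
    have a2 : 0 ≤ ω * (p * -d) := mul_nonneg hω.le (mul_nonneg (by omega) (by omega))
    have a3 : 0 < ω * (5 * p - 8 * Θ) := mul_pos hω (by omega)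
    obtain rfl : U = D - p + Θ := by omega
    linarith
  obtain rfl : d = 1 := by
    by_contra hd
    have a1 : 0 ≤ (d - 2) * (R + 1 + τ) := mul_nonneg (by omega) (by omega)
    have := abs_le.1 t1
    rcases h2 _ m1 _ m1 with e | e <;> simp only at e <;> linarith [e.2.2.2]
  let f : ℤ × ℤ → ℤ := fun P => if 64 * (ω * ω) < P.2 then 1 else 0
  have t3 := abs_le.1 t1
  have key : ∀ P ∈ l, 0 ≤ 1 * f P + 1 * P.1 + -1 * P.2 ∧ 0 ≤ -(R + τ) * f P + 1 * P.1 + 0 * P.2 ∧
      (0 ≤ (R + 1 + τ) * f P + 0 * P.1 + -1 * P.2 ∨ Θ < 1 * f P + 1 * P.1 + -1 * P.2) := by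
    rintro ⟨i, N⟩ h
    have b2 := hb _ h
    simp only [f] at b2 ⊢
    rcases h2 _ m1 _ h with ⟨e1, e2, -, e3⟩ | ⟨e1, e2, e4, e3⟩ <;> simp only at e1 e2 e3
    · have e5 : (R + τ - i) * N ≤ 64 * (ω * ω) := by linarith
      rcases (show i = R + τ ∨ 1 ≤ R + τ - i by omega) with c | c
      · split_ifs <;> omega
      have a1 := mul_le_mul_of_nonneg_right c b2.2.1
      rw [if_neg (by omega)]
      rcases (show N = 0 ∨ 1 ≤ N by omega) with c' | c'
      · omega
      · have := mul_le_mul_of_nonneg_left c' (show 0 ≤ R + τ - i by omega)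
        omega
    · have e5 : (2 * R + 1 - i) * (N - (R + 1 + τ)) ≤ 64 * (ω * ω) := by linarith
      rw [if_pos (by omega)]
      rcases (show N = R + 1 + τ ∨ 1 ≤ N - (R + 1 + τ) by omega) with c | c
      · omega
      · have := mul_le_mul_of_nonneg_left c (show 0 ≤ 2 * R + 1 - i by simp only at e4; omega)
        omega
  have s1 := pos f 1 1 (-1) fun P h => (key P h).1
  have s2 := pos f (-(R + τ)) 1 0 fun P h => (key P h).2.1
  have s3 : (l.map f).sum ≤ p := hp ▸ sum_le_sum fun P _ => by simp only [f]; split_ifs <;> omega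
  have s4 := pos f (R + 1 + τ) 0 (-1) fun P h => (key P h).2.2.resolve_right (not_lt.2 (by
    have := single_le_sum (l := l.map fun P => 1 * f P + 1 * P.1 + -1 * P.2)
      (by simpa only [forall_mem_map] using fun P h => (key P h).1) _ (mem_map_of_mem h)
    rw [lin] at this
    omega))
  exact ⟨τ, (l.map f).sum, t1, by omega, s3, by linarith, by linarith⟩

variable {α : Type} [DecidableEq α]

/-- For each letter `a`, the numbers of letters `c` and `b` after it. -/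
def pts (a b c : α) : List α → List (ℤ × ℤ)
  | [] => []
  | d :: w => if d = a then ((w.count c : ℤ), (w.count b : ℤ)) :: pts a b c w else pts a b c w

theorem pts_sum (a b c : α) (w : List α) : ((pts a b c w).map fun _ => (1 : ℤ)).sum = w.count a ∧
    ((pts a b c w).map fun P => P.1).sum = occ w [a, c] ∧
    ((pts a b c w).map fun P => P.2).sum = occ w [a, b] := by
  induction w with
  | nil => simp [pts]
  | cons d w ih =>
    by_cases h : d = a
    · simp only [pts, h, if_true, map_cons, sum_cons, ih, occ2_cons, count_cons_self]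
      omega
    · simp only [pts, h, if_false, ih, occ2_cons, count_cons_of_ne h, add_zero, and_self]

theorem mem_pts {a b c : α} {w : List α} {P : ℤ × ℤ} (h : P ∈ pts a b c w) :
    ∃ X S, w = X ++ S ∧ P = ((S.count c : ℤ), (S.count b : ℤ)) := by
  induction w with
  | nil => simp [pts] at h
  | cons d w ih =>
    have : P = ((w.count c : ℤ), (w.count b : ℤ)) ∨ P ∈ pts a b c w := by
      simp only [pts] at h
      split_ifs at h
      exacts [mem_cons.1 h, Or.inr h]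
    rcases this with h | h
    · exact ⟨[d], w, rfl, h⟩
    · obtain ⟨X, S, h1, h2⟩ := ih h
      exact ⟨d :: X, S, by rw [h1]; rfl, h2⟩

theorem rigid32 {a b c : α} (w : List α) (R Δ ω Θ p U D : ℤ) (ca : (w.count a : ℤ) = p)
    (cb : (w.count b : ℤ) = R + 1 + Δ) (cc : (w.count c : ℤ) = 2 * R + 1)
    (ab : (occ w [a, b] : ℤ) = D) (ac : (occ w [a, c] : ℤ) = U)
    (bc : (occ w [c, b] : ℤ) = (R + 1) ^ 2)
    (hω : 0 < ω) (hΔ : 0 ≤ Δ) (hΔ' : Δ ≤ 8 * ω) (h3 : p * (R + 1 + Δ) - D ≤ p * ω)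
    (h4 : D - U = p - Θ) (h5 : 0 ≤ Θ) (h6 : 2 * Θ < p) (h7 : 1000 * (ω * ω) + Θ ≤ R) :
    ∃ τ B, |τ| ≤ 8 * ω ∧ p - Θ ≤ B ∧ B ≤ p ∧ 0 ≤ U - (R + τ) * B ∧ U - (R + τ) * B ≤ Θ := by
  obtain ⟨s1, s2, s3⟩ := pts_sum a b c w
  refine geo3 (pts a b c w) R Δ ω Θ p U D (s1.trans ca) (s2.trans ac) (s3.trans ab)
    (fun P h => ?_) (fun P h Q h' => ?_) hω hΔ hΔ' h3 h4 h5 h6 h7
  · obtain ⟨X, S, rfl, rfl⟩ := mem_pts h
    simp only [count_append] at cb ⊢
    omega
  · have key : ∀ X M S, w = X ++ (M ++ S) → (S.count c : ℤ) ≤ (M ++ S).count c ∧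
        (S.count b : ℤ) ≤ (M ++ S).count b ∧ ((M ++ S).count c : ℤ) ≤ 2 * R + 1 ∧
        (2 * R + 1 - (M ++ S).count c) * (M ++ S).count b +
          ((M ++ S).count c - S.count c) * S.count b ≤ (R + 1) ^ 2 := by
      rintro X M S rfl
      rw [← cc, ← bc]
      simp only [occ2_append, count_append]
      push_cast
      refine ⟨by omega, by omega, by omega, ?_⟩
      linarith [Int.natCast_nonneg (occ X [c, b]), Int.natCast_nonneg (occ M [c, b]),
        Int.natCast_nonneg (occ S [c, b])]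
    obtain ⟨X, S, e, rfl⟩ := mem_pts h
    obtain ⟨X', S', e', rfl⟩ := mem_pts h'
    rcases append_eq_append_iff.1 (e.symm.trans e') with ⟨M, -, rfl⟩ | ⟨M, -, rfl⟩
    exacts [Or.inl (key X M S' e), Or.inr (key X' M S e')]

theorem arith32 (h a b x n τ B E : ℤ) (h1 : 1 ≤ h) (ha : 0 ≤ a) (hb : 1 ≤ b)
    (hx : a + 10000 * (h * h * h) ≤ x) (hn : n = x * x) (t1 : |τ| ≤ 56 * (n * h))
    (b1 : n * n * n * b + n * n * b - 15 * (n * h * h) ≤ B)
    (b2 : B ≤ n * n * n * b + n * n * b + 3 * (n * h))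
    (e : E = n * n * n * b * (n * n * n * b + n * n * b) - n * n * a + 5 * (n * h * h) -
      (n * n * n * b + τ) * B) (e1 : 0 ≤ E) (e2 : E ≤ 3 * (n * h) + 15 * (n * h * h)) :
    ∃ s u : ℤ, |s| ≤ 1000 * h ∧ s ^ 2 = a + b * u := by
  obtain ⟨s, rfl⟩ : ∃ s, B = n * n * n * b + n * n * b - τ - s := ⟨_, (sub_sub_cancel _ _).symm⟩
  obtain ⟨u, rfl⟩ : ∃ u, τ = n * s + u := ⟨τ - n * s, by ring⟩
  have c1 : h ≤ h * h := le_mul_me _
  have c2 : h * h ≤ h * h * h := le_mul_of_one_le_right (by omega) h1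
  have c3 : x ≤ n := hn ▸ le_mul_me _
  have n0 : 0 < n := by omega
  have c4 := mul_le_mul_of_nonneg_left c1 n0.le
  have c5 := mul_le_mul_of_nonneg_left h1 n0.le
  have s1 : |s| ≤ 71 * (n * h * h) := by
    rw [abs_le] at t1 ⊢
    constructor <;> linarith
  have u1 : |b * u| ≤ x := abs_cancel (mul_pos n0 n0) (by
    have a1 := abs_le.1 (absmul t1 t1)
    have a2 := abs_le.1 (absmul s1 t1)
    have a3 := mul_le_mul_of_nonneg_left hx (mul_pos n0 n0).le
    have a4 := mul_le_mul_of_nonneg_left c2 (mul_pos n0 n0).le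
    have a5 : n * (h * h) ≤ n * n * (h * h) :=
      mul_le_mul_of_nonneg_right (le_mul_me _) (mul_self_nonneg _)
    have a6 := mul_nonneg (mul_pos n0 n0).le ha
    have a7 := mul_pos n0 n0
    rw [abs_lt]
    constructor <;> linarith)
  have u2 : |u| ≤ x := by
    rw [abs_mul, abs_of_pos (by omega)] at u1
    exact (le_mul_of_one_le_left (abs_nonneg _) hb).trans u1
  have s2 : |s| ≤ 57 * h := abs_cancel n0 (by
    rw [abs_le] at t1 u2
    rw [abs_lt]
    constructor <;> linarith)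
  refine ⟨s, u, by omega, ?_⟩
  have := abs_cancel (y := s ^ 2 - a - b * u) (A := 0) (mul_pos n0 n0) (by
    have a1 := abs_le.1 (absmul (abs_of_pos n0).le (absmul s2 u2))
    have a2 := abs_le.1 (absmul u2 u2)
    have a3 := abs_le.1 (absmul s2 t1)
    have a4 : 10000 * h * x ≤ x * x := mul_le_mul_of_nonneg_right (by omega) (by omega)
    have a5 : h * (10000 * h) ≤ h * x := mul_le_mul_of_nonneg_left (by omega) (by omega)
    rw [← hn] at a2 a4
    have a6 := mul_le_mul_of_nonneg_left a4 n0.le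
    have a7 := mul_le_mul_of_nonneg_left a5 n0.le
    rw [abs_lt]
    constructor <;> linarith)
  rw [abs_nonpos_iff] at this
  omega

theorem real32 (i j A B q p E F T : ℤ) (h0 : 0 ≤ i ∧ 0 ≤ j ∧ 0 ≤ A ∧ 0 ≤ B ∧ 0 ≤ q ∧ 0 ≤ p)
    (hT : 0 ≤ T ∧ T ≤ j * q) (hF : 0 ≤ F ∧ F ≤ B * A) (hE : 0 ≤ E ∧ E ≤ p * i) :
    ∃ w : List (Fin 3), (w.count 0 : ℤ) = B + p ∧ (w.count 1 : ℤ) = q + A ∧
      (w.count 2 : ℤ) = j + i ∧ (occ w [0, 1] : ℤ) = F ∧ (occ w [0, 2] : ℤ) = B * i + E ∧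
      (occ w [2, 1] : ℤ) = j * A + T := by
  obtain ⟨a1, a2, a3, a4, a5, a6⟩ := h0
  lift i to ℕ using a1
  lift j to ℕ using a2
  lift A to ℕ using a3
  lift B to ℕ using a4
  lift q to ℕ using a5
  lift p to ℕ using a6
  lift T to ℕ using hT.1
  lift F to ℕ using hF.1
  lift E to ℕ using hE.1
  obtain ⟨u, u1, u2, u3, u4⟩ := exists_xy (show (2 : Fin 3) ≠ 1 by decide) j q T
    (by exact_mod_cast hT.2)
  obtain ⟨v, v1, v2, v3, v4⟩ := exists_xy (show (0 : Fin 3) ≠ 1 by decide) B A F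
    (by exact_mod_cast hF.2)
  obtain ⟨w, w1, w2, w3, w4⟩ := exists_xy (show (0 : Fin 3) ≠ 2 by decide) p i E
    (by exact_mod_cast hE.2)
  have u5 := u4 0 (by decide) (by decide)
  have v5 := v4 2 (by decide) (by decide)
  have w5 := w4 1 (by decide) (by decide)
  refine ⟨u ++ (v ++ w), ?_⟩
  simp only [count_append, occ2_append, u1, u2, u3, v1, v2, v3, w1, w2, w3, count_eq_zero.2 u5,
    count_eq_zero.2 v5, count_eq_zero.2 w5, occ2_left _ u5, occ2_left _ v5, occ2_right _ v5,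
    occ2_right _ w5]
  push_cast
  refine ⟨?_, ?_, ?_, ?_, ?_, ?_⟩ <;> ring

theorem base32 {ι : Type} {p q r : (ι → ℕ) → ℕ} (hp : Nice fun P => (p P : ℤ))
    (hq : Nice fun P => (q P : ℤ)) (hr : Nice fun P => (r P : ℤ)) (hl : ∀ P, 2 ≤ p P + q P + r P)
    {D U V : (ι → ℕ) → ℤ} (hD : Nice D) (hU : Nice U) (hV : Nice V) :
    ∃ g : (ι → ℕ) → Ser (Fin 3), Good 2 g ∧ ∀ P w, Eqv 2 (ws w) (g P) ↔ (w.count 0 : ℤ) = p P ∧
      (w.count 1 : ℤ) = q P ∧ (w.count 2 : ℤ) = r P ∧ (occ w [0, 1] : ℤ) = D P ∧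
      (occ w [0, 2] : ℤ) = U P ∧ (occ w [2, 1] : ℤ) = V P := by
  have g0 := (Good.one (ι := ι)).mul (s := 2) (v := fun P => replicate (p P) (0 : Fin 3) ++
    (replicate (q P) 1 ++ replicate (r P) 2)) (((NiceS.rep 0 hp).mul ((NiceS.rep 1 hq).mul
      (NiceS.rep 2 hr))).of_eq fun P => by simp only [ws_append]) fun P => by
        have := hl P; simp; omega
  have sw : ∀ x y : Fin 3, Eqv 1 (ws [x, y]) (ws [y, x]) := fun x y =>
    eqv_one_of_perm (Perm.swap y x [])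
  obtain ⟨g1, a1, b1⟩ := g0.adjust le_rfl (sw 0 1) (hD.sub (g0.nice [0, 1]))
  obtain ⟨g2, a2, b2⟩ := a1.adjust le_rfl (sw 0 2) (hU.sub (g0.nice [0, 2]))
  obtain ⟨g3, a3, b3⟩ := a2.adjust le_rfl (sw 2 1) (hV.sub (g0.nice [2, 1]))
  refine ⟨g3, a3, fun P w => ?_⟩
  have s := ((b3 P).trans (b2 P)).trans (b1 P)
  have c0 := s.eqv [0] le_rfl
  have c1 := s.eqv [1] le_rfl
  have c2 := s.eqv [2] le_rfl
  have c3 := s.top [0, 1] rfl
  have c4 := s.top [0, 2] rfl
  have c5 := s.top [2, 1] rfl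
  simp [ws_apply, occ_single, count_replicate] at c0 c1 c2
  simp only [add_apply, zsmul_apply, sub_apply, ws_apply [_, _]] at c3 c4 c5
  simp [occ_cons] at c3 c4 c5
  constructor
  · intro h
    rw [← c0, ← c1, ← c2, ← c3, ← c4, ← c5, ← h [0] (by simp), ← h [1] (by simp),
      ← h [2] (by simp), ← h [0, 1] le_rfl, ← h [0, 2] le_rfl, ← h [2, 1] le_rfl]
    simp [ws_apply, occ_single]
  · rintro ⟨e0, e1, e2, e3, e4, e5⟩
    refine fr_step (a3.fr P) (eqv_one (by simp [(a3.fr P).one]) fun a => ?_)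
      (fun u => u = [0, 1] ∨ u = [0, 2] ∨ u = [2, 1]) ?_ fun X Y h1 h2 => ?_
    · fin_cases a <;> simp [ws_apply, occ_single, *]
    · rintro _ (rfl | rfl | rfl) - <;> simp [ws_apply, *]
    · have k := h1.count le_rfl
      have k1 := h2 [0, 1] (by simp) rfl
      have k2 := h2 [0, 2] (by simp) rfl
      have k3 := h2 [2, 1] (by simp) rfl
      have s1 := occ2_swap X (show (2 : Fin 3) ≠ 1 by decide)
      have s2 := occ2_swap X (show (2 : Fin 3) ≠ 0 by decide)
      have s3 := occ2_swap X (show (1 : Fin 3) ≠ 0 by decide)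
      simp only [k, ← occ2_swap Y (show (2 : Fin 3) ≠ 1 by decide), ← occ2_swap Y
        (show (2 : Fin 3) ≠ 0 by decide), ← occ2_swap Y (show (1 : Fin 3) ≠ 0 by decide)]
        at s1 s2 s3
      refine eqv_two 0 k fun b hb b' hb' => ?_
      fin_cases b <;> fin_cases b' <;> simp at hb hb' ⊢ <;> omega

theorem good32 : ∃ g : (Fin 3 → ℕ) → Ser (Fin 3), Good 2 g ∧ ∀ P,
    (QY P → ∃ w, Eqv 2 (ws w) (g P)) ∧ ∀ w, Eqv 2 (ws w) (g P) → QN P := by
  let n : (Fin 3 → ℕ) → ℕ := fun P =>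
    (P 1 + 10000 * (P 0 * P 0 * P 0)) * (P 1 + 10000 * (P 0 * P 0 * P 0))
  have hn : Nice fun P => (n P : ℤ) := by
    simp only [n, Nat.cast_add, Nat.cast_mul]
    repeat' first | exact Nice.const _ | exact Nice.var _ | apply Nice.add | apply Nice.mul
  refine (base32
    (p := fun P => n P * n P * n P * P 2 + n P * n P * P 2 + 3 * (n P * P 0))
    (q := fun P => n P * n P * n P * P 2 + 1 + 2 * (n P * P 0))
    (r := fun P => 2 * (n P * n P * n P * P 2) + 1)
    (D := fun P => n P * n P * n P * P 2 * (n P * n P * n P * P 2 + n P * n P * P 2) -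
      n P * n P * P 1 + 5 * (n P * P 0 * P 0) +
      (n P * n P * n P * P 2 + n P * n P * P 2 - 15 * (n P * P 0 * P 0)))
    (U := fun P => n P * n P * n P * P 2 * (n P * n P * n P * P 2 + n P * n P * P 2) -
      n P * n P * P 1 + 5 * (n P * P 0 * P 0))
    (V := fun P => (n P * n P * n P * P 2 + 1) ^ 2) ?_ ?_ ?_ (fun P => by omega) ?_ ?_ ?_).imp
    fun g h2 => ⟨h2.1, fun P => ?_⟩
  iterate 6
    focus
      try simp only [Nat.cast_add, Nat.cast_mul]
      repeat' first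
        | exact Nice.const _ | exact hn | exact Nice.var _ | apply Nice.sub | apply Nice.add
        | apply Nice.mul | apply Nice.pow
  simp only [h2.2, QY, QN]
  clear h2
  have hx : (n P : ℤ) = (P 1 + 10000 * (P 0 * P 0 * P 0)) * (P 1 + 10000 * (P 0 * P 0 * P 0)) := by
    simp [n]
  push_cast
  have ha := Int.natCast_nonneg (P 1)
  rw [← Nat.one_le_cast (α := ℤ), ← Nat.one_le_cast (α := ℤ) (n := P 2)]
  generalize (n P : ℤ) = n at *
  generalize (P 0 : ℤ) = h at *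
  generalize (P 1 : ℤ) = a at *
  generalize (P 2 : ℤ) = b at *
  have big : 1 ≤ h → 1 ≤ b → h ≤ h * h ∧ a ≤ n ∧ 100000 * (h * h) ≤ n ∧ n ≤ n * h ∧
      n * h ≤ n * h * h ∧ n * h * h ≤ n * h * (n * h) ∧
      100000 * (n * h * (n * h)) ≤ n * n * n * b ∧ n * n * a ≤ n * n * n * b ∧
      0 ≤ n * n * b := fun c1 c2 => by
    have a1 : h ≤ h * h := le_mul_me _
    have a2 : h * h ≤ h * h * h := le_mul_of_one_le_right (by omega) c1
    have a3 : a + 10000 * (h * h * h) ≤ n := hx ▸ le_mul_me _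
    have a4 : 10000 * (a + 10000 * (h * h * h)) ≤ n :=
      hx ▸ mul_le_mul_of_nonneg_right (by omega) (by omega)
    have n0 : 0 ≤ n * n := mul_self_nonneg _
    have a5 := mul_le_mul_of_nonneg_left (show 100000 * (h * h) ≤ n by omega) n0
    have a6 := mul_le_mul_of_nonneg_left (show a ≤ n by omega) n0
    have a7 : n * n * n ≤ n * n * n * b :=
      le_mul_of_one_le_right (mul_nonneg n0 (by omega)) c2
    have a8 : n ≤ n * h := le_mul_of_one_le_right (by omega) c1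
    exact ⟨a1, by omega, by omega, a8, le_mul_of_one_le_right (by omega) c1,
      mul_le_mul_of_nonneg_left (by omega) (by omega), by linarith, by linarith,
      mul_nonneg n0 (by omega)⟩
  constructor
  · rintro ⟨c1, c2, s, u, s1, u1, e⟩
    obtain ⟨a1, a2, a3, a4, a5, a6, a7, a8, a9⟩ := big c1 c2
    have n0 : |n| ≤ n := (abs_of_nonneg (by omega)).le
    have t0 := abs_le.1 (absmul n0 s1)
    have t1 : |n * s + u| ≤ 2 * (n * h) - 1 := by rw [abs_le] at u1 ⊢; omega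
    have t2 : |n * s + u| ≤ 2 * (n * h) := by omega
    have p1 := abs_le.1 (absmul n0 (absmul s1 u1))
    have p2 := abs_le.1 (absmul u1 u1)
    have p3 := abs_le.1 (absmul s1 t2)
    have p4 := abs_le.1 (absmul t2 t2)
    rw [abs_le] at s1 u1 t1
    have m : ∀ {x y z : ℤ}, 0 ≤ y → x ≤ y → 1 ≤ z → x ≤ y * z := fun h1 h2 h3 =>
      h2.trans (le_mul_of_one_le_right h1 h3)
    obtain ⟨w, e0, e1, e2, e3, e4, e5⟩ := real32 (n * n * n * b + (n * s + u))
      (n * n * n * b + 1 - (n * s + u)) (n * n * n * b + 1 + (n * s + u))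
      (n * n * n * b + n * n * b - (n * s + u) - s) (2 * (n * h) - (n * s + u))
      (3 * (n * h) + (n * s + u) + s)
      (5 * (n * h * h) + 2 * (n * (s * u)) + u * u + s * (n * s + u))
      ((n * n * n * b + n * n * b - (n * s + u) - s) * (n * n * n * b + 1 + (n * s + u)) -
        (10 * (n * h * h) - (n * s + u) - s - (2 * (n * (s * u)) + u * u + s * (n * s + u))))
      ((n * s + u) * (n * s + u)) (by omega) ⟨mul_self_nonneg _, m (by omega) (by linarith) (by omega)⟩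
      ⟨sub_nonneg.2 (m (by omega) (by linarith) (by omega)), sub_le_self _ (by linarith)⟩
      ⟨by linarith, (m (by omega) (by linarith) (by omega)).trans_eq (mul_comm _ _)⟩
    exact ⟨w, by linarith, by linarith, by linarith, by linear_combination e3 - n * n * e,
      by linear_combination e4 - n * n * e, by linear_combination e5⟩
  · rintro w ⟨e0, e1, e2, e3, e4, e5⟩ c1 c2
    obtain ⟨a1, a2, a3, a4, a5, a6, a7, a8, a9⟩ := big c1 c2
    obtain ⟨τ, B, k1, k2, k3, k4, k5⟩ := rigid32 w _ _ (7 * (n * h))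
      (3 * (n * h) + 15 * (n * h * h)) _ _ _ e0 e1 e2 e3 e4 e5 (by omega) (by omega) (by omega)
      (by
        have b1 : 0 ≤ n * h * (n * n * b + 3 * (n * h)) := mul_nonneg (by omega) (by omega)
        have b2 : 0 ≤ (n * h - 1) * (n * n * n * b + n * n * b + 3 * (n * h)) :=
          mul_nonneg (by omega) (by omega)
        linarith) (by ring) (by omega) (by omega) (by linarith)
    exact arith32 h a b _ n τ B _ c1 ha c2 le_rfl hx (by omega) (by omega) k3 rfl k4 k5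

end Pool.Agent.P.MP_26ce3f_co
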