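import Pool.Agent.P.MP_26ce3f_co.All.Three

/-! Two letters, degree three: pairs of partitions with both second moments prescribed. -/

namespace Pool.Agent.P.MP_26ce3f_co

open Ser List

/-- Size, sum of squares and weighted sum of a sequence of nonnegative rows. -/
inductive Par : ℤ → ℤ → ℤ → Prop
  | nil : Par 0 0 0
  | push {k R B x : ℤ} : Par k R B → 0 ≤ x → Par (k + x) (R + x * x) (B + k)

theorem Par.bd {Y R B : ℤ} (h : Par Y R B) : 0 ≤ Y ∧ 0 ≤ R ∧ R ≤ Y * Y ∧ 0 ≤ B := by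
  induction h with
  | nil => simp
  | push _ hx ih =>
    have := mul_nonneg ih.1 hx
    have := mul_nonneg hx hx
    exact ⟨by omega, by omega, by linarith, by omega⟩

theorem Par.peel {Y R B : ℤ} (h : Par Y R B) :
    ∃ k R' B', Par k R' B' ∧ R = R' + (Y - k) * (Y - k) ∧ B = B' + k := by
  cases h with
  | nil => exact ⟨0, 0, 0, Par.nil, rfl, rfl⟩
  | push h _ => exact ⟨_, _, _, h, by ring, rfl⟩

section
variable {α : Type} [DecidableEq α] {x y : α}

theorem occ_reverse (w u : List α) : occ w.reverse u.reverse = occ w u := by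
  unfold occ
  rw [sublists_reverse, count_map_of_injective _ _ reverse_injective,
    (sublists_perm_sublists' w).count_eq]

theorem shufA (h : x ≠ y) (w : List α) : (w.count x : ℤ) * occ w [x, y] =
    2 * occ w [x, x, y] + occ w [x, y, x] + occ w [x, y] := by
  induction w with
  | nil => simp
  | cons d w ih =>
    have := congrArg (Nat.cast (R := ℤ)) (occ2_swap w h)
    by_cases e : d = x <;> simp [occ_cons, occ_single, e] at this ⊢ <;> linarith

theorem shufB (h : x ≠ y) (w : List α) : (w.count x : ℤ) * occ w [y, x] =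
    2 * occ w [y, x, x] + occ w [x, y, x] + occ w [y, x] := by
  induction w with
  | nil => simp
  | cons d w ih =>
    have := two_choose (w.count x)
    by_cases e : d = x
    · simp [occ_cons, e, h]; linarith
    · by_cases e' : d = y
      · simp [occ_cons, occ_single, e', h.symm, occ2_diag]; linarith
      · simpa [occ_cons, e, e'] using ih

theorem par_word (x y : α) (w : List α) :
    Par (occ w [y, x]) (2 * occ w [y, x, x] + occ w [y, x]) (occ w [y, y, x]) := by
  induction w with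
  | nil => simpa using Par.nil
  | cons d w ih =>
    by_cases e : d = y
    · have := two_choose (w.count x)
      convert ih.push (Int.natCast_nonneg (w.count x)) using 1 <;>
        simp [occ_cons, occ_single, e, occ2_diag]
      linarith
    · simpa [occ_cons, e] using ih

/-- Descending sequences between `p` and `0`. -/
def Desc : ℤ → List ℤ → Prop
  | p, [] => 0 ≤ p
  | p, x :: l => x ≤ p ∧ Desc x l

/-- The weighted sum of a list. -/
def wsum : List ℤ → ℤ
  | [] => 0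
  | _ :: l => l.sum + wsum l

theorem exists_rows (h : x ≠ y) (l : List ℤ) (p : ℤ) (hp : Desc p l) : ∃ w : List α,
    (w.count x : ℤ) = p ∧ w.count y = l.length ∧ (occ w [y, x] : ℤ) = l.sum ∧
      (2 * occ w [y, x, x] + occ w [y, x] : ℤ) = (l.map fun z => z * z).sum ∧
      (occ w [y, y, x] : ℤ) = wsum l := by
  have pre : ∀ (m : ℕ) (w u : List α), occ (replicate m x ++ w) (y :: u) = occ w (y :: u) :=
    fun m w u => by
      induction m with
      | zero => rfl
      | succ m ih => rw [replicate_succ, cons_append, occ_cons, if_neg h, ih, add_zero]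
  induction l generalizing p with
  | nil =>
    refine ⟨replicate p.toNat x ++ [], by simpa [Desc] using hp, by simp [count_replicate, h], ?_⟩
    simp only [pre]; simp [wsum]
  | cons z l ih =>
    obtain ⟨w, a1, a2, a3, a4, a5⟩ := ih z hp.2
    have := two_choose (w.count x)
    have := hp.1
    refine ⟨replicate (p - z).toNat x ++ y :: w, by simp [h.symm]; omega,
      by simp [count_replicate, h, a2], ?_⟩
    simp only [pre, occ_cons, occ_single, occ2_diag, if_true, wsum, map_cons, sum_cons]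
    push_cast
    rw [a1] at *
    exact ⟨by linarith, by linarith, by linarith⟩

theorem level0 (h : x ≠ y) (w : List α) (c : ℕ) (Y Z E F m : ℤ) (hY : 0 ≤ Y) (hZ : 0 ≤ Z)
    (hE : 0 ≤ E) (hc : 4 * ((Y + Z) * (Y + Z)) + E < c) (e0 : w.count x = 2 * c)
    (e1 : (occ w [x, y] : ℤ) = Y - Z + 2 * c * m)
    (e2 : (2 * occ w [x, x, y] + occ w [x, y] : ℤ) = E + 4 * c * c * m - 4 * c * Z)
    (e3 : (2 * occ w [x, y, y] : ℤ) = 2 * F + 2 * Y * m + 2 * c * m * (m - 1) - 2 * (m - 1) * Z) :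
    ∃ R1 R2 B1 B2, Par Y R1 B1 ∧ Par Z R2 B2 ∧ R1 + R2 = E ∧ B1 + B2 = F := by
  obtain ⟨u, v, rfl, hu⟩ := exists_cut x w c (by omega)
  have hv : v.count x = c := by rw [count_append] at e0; omega
  have p1 := par_word x y u.reverse
  have s1 := shufB h u.reverse
  rw [count_reverse] at s1
  simp only [← occ_reverse u.reverse, reverse_reverse, reverse_cons, reverse_nil, nil_append,
    cons_append] at p1 s1
  have p2 := par_word x y v
  have s2 := shufA h v
  have s3 := shufB h v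
  have s4 := shufA h.symm v
  have s5 := shufB h.symm v
  have s6 := congrArg (Nat.cast (R := ℤ)) (occ2_swap v h)
  have c1 := two_choose c
  have c2 := two_choose (v.count y)
  simp only [occ2_append, occ3_append, occ2_diag, hu, hv] at e1 e2 e3 s1 s2 s3 s6
  push_cast at e1 e2 e3 s6
  have b1 := p1.bd
  have b2 := p2.bd
  have n1 := Int.natCast_nonneg (occ u [x, y, x])
  have n2 := Int.natCast_nonneg (occ v [x, y, x])
  generalize hR1 : (2 * occ u [x, x, y] + occ u [x, y] : ℤ) = R1 at *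
  generalize hR2 : (2 * occ v [y, x, x] + occ v [y, x] : ℤ) = R2 at *
  generalize (occ u [x, y] : ℤ) = Y' at *
  generalize (occ v [y, x] : ℤ) = Z' at *
  generalize (v.count y : ℤ) = q at *
  have hq := mul_self_nonneg (Y + Z)
  have c0 : (0 : ℤ) < c := by omega
  have k1 : Y' - Z' + 2 * c * q = Y - Z + 2 * c * m := by linarith
  have k2 : R1 + R2 + 4 * c * c * q - 4 * c * Z' = E + 4 * c * c * m - 4 * c * Z := by
    linear_combination e2 - q * c1 - 3 * c * s6 + s2 - s3 - hR1 - hR2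
  have k3 : 2 * c * (Y' + Z' - (Y + Z)) = R1 + R2 - E := by linear_combination 2 * c * k1 - k2
  have k4 : Y' + Z' ≤ 2 * (Y + Z) := le_of_mul_le_mul_left (by linarith) c0
  have k5 := mul_self_le_mul_self (by omega) k4
  have k6 := mul_nonneg b1.1 b2.1
  have k7 := abs_cancel (M := 2 * c) (y := Y' + Z' - (Y + Z)) (A := 0) (by omega)
    (by rw [k3, abs_lt]; constructor <;> linarith)
  rw [abs_nonpos_iff] at k7
  have k8 := abs_cancel (M := c) (y := q - m) (A := 0) c0 (by
    have := le_mul_me (Y + Z)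
    rw [show c * (q - m) = Y - Y' by linarith, abs_lt]
    omega)
  rw [abs_nonpos_iff, sub_eq_zero] at k8
  subst k8
  obtain rfl : Y' = Y := by omega
  obtain rfl : Z' = Z := by omega
  refine ⟨_, _, _, _, p1, p2, by linarith, mul_left_cancel₀ two_ne_zero ?_⟩
  linear_combination e3 - c * c2 + s5 - s4 - (q - 1) * s6

end

theorem level1 {L n f1 f2 m1 m2 x1 x2 R E F : ℤ} (a1 : |f1| ≤ 2 * F) (a2 : |f2| ≤ 2 * F)
    (b1 : 0 ≤ m1 ∧ m1 ≤ F) (b2 : 0 ≤ m2 ∧ m2 ≤ F) (c1 : 0 ≤ x1 ∧ x1 ≤ F) (c2 : 0 ≤ x2 ∧ x2 ≤ F)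
    (hR : 0 ≤ R ∧ R ≤ x1 * x1 + x2 * x2) (hE : 0 ≤ E) (hL : 20 * (F * F) + E < L)
    (e : (L * n + f1 - x1) * (L * n + f1 - x1) + (L * (n + 1) + f2 - x2) * (L * (n + 1) + f2 - x2) +
      R = (L * n + f1 - m1) * (L * n + f1 - m1) +
        (L * (n + 1) + f2 - m2) * (L * (n + 1) + f2 - m2) + E) :
    ∃ s, x1 = m1 + (n + 1) * s ∧ x2 = m2 - n * s := by
  have p1 := abs_le.1 (absmul a1 (show |x1 - m1| ≤ F by rw [abs_le]; omega))
  have p2 := abs_le.1 (absmul a2 (show |x2 - m2| ≤ F by rw [abs_le]; omega))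
  have q1 := mul_self_le_mul_self b1.1 b1.2
  have q2 := mul_self_le_mul_self b2.1 b2.2
  have q3 := mul_self_le_mul_self c1.1 c1.2
  have q4 := mul_self_le_mul_self c2.1 c2.2
  have := abs_cancel (M := L) (y := n * (x1 - m1) + (n + 1) * (x2 - m2)) (A := 0)
    (by linarith [mul_self_nonneg F]) (by
      rw [abs_lt]
      constructor <;> linarith [mul_self_nonneg m1, mul_self_nonneg m2, mul_self_nonneg x1,
        mul_self_nonneg x2])
  rw [abs_nonpos_iff] at this
  exact ⟨x1 - m1 + (x2 - m2), by linarith, by linarith⟩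

/-- Size of the second partition without its first row. -/
def pm (h b n : ℤ) : ℤ := (n * n + (n + 1) * (n + 1)) * b + 605 * h + 12 - 2 * h * (n + 1)
/-- The prescribed weighted sum. -/
def pf (h b n : ℤ) : ℤ := 2 * h * (n + 1) + pm h b n + 927 * h + 19
/-- The prescribed sum of squares without the first rows. -/
def pe (h a b n : ℤ) : ℤ := (2 * h * (n + 1) - (209 * h + 4)) ^ 2 +
  (pm h b n - (209 * h + 4)) ^ 2 + (25252 * (h * h) + 1168 * h + 22) +
  2 * ((n * n + (n + 1) * (n + 1)) * a)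
/-- Half the size of the first partition. -/
def py (h n L : ℤ) : ℤ := L * n + 2 * h * (n + 1) - 101 * h - 2
/-- Half the size of the second partition. -/
def pz (h b n L : ℤ) : ℤ := L * (n + 1) + pm h b n - 101 * h - 2
/-- The prescribed sum of squares. -/
def ps (h a b n L : ℤ) : ℤ := (2 * py h n L - 2 * h * (n + 1)) ^ 2 +
  (2 * pz h b n L - pm h b n) ^ 2 + pe h a b n

theorem pe_nonneg {h a : ℤ} (b n : ℤ) (h1 : 0 ≤ h) (ha : 0 ≤ a) : 0 ≤ pe h a b n := by
  have := mul_nonneg (add_nonneg (mul_self_nonneg n) (mul_self_nonneg (n + 1))) ha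
  unfold pe; positivity

theorem pm_big {h b n : ℤ} (h1 : 1 ≤ h) (hb : 1 ≤ b) (hn : n = 10000000 * (h * h)) :
    h ≤ h * h ∧ 1000 * h ≤ n * h ∧ 1000 * (n * h) ≤ n * n ∧ n * n ≤ pm h b n := by
  have a1 := le_mul_me h
  have a2 : 1000 * h ≤ n * h := mul_le_mul_of_nonneg_right (by omega) (by omega)
  have a3 : n * (1000 * h) ≤ n * n := mul_le_mul_of_nonneg_left (by omega) (by omega)
  have a4 := le_mul_of_one_le_right
    (add_nonneg (mul_self_nonneg n) (mul_self_nonneg (n + 1))) hb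
  exact ⟨a1, a2, by linarith, by unfold pm; linarith⟩

theorem core23 {h a b n L R1 R2 B1 B2 : ℤ} (h1 : 1 ≤ h) (ha : 0 ≤ a) (hb : 1 ≤ b)
    (hn : n = 10000000 * (h * h)) (hL : 20 * (pf h b n * pf h b n) + pe h a b n < 2 * L)
    (p1 : Par (2 * py h n L) R1 B1) (p2 : Par (2 * pz h b n L) R2 B2)
    (eR : R1 + R2 = ps h a b n L) (eB : B1 + B2 = pf h b n) :
    ∃ s u : ℤ, |s| ≤ 1000 * h ∧ s ^ 2 = a + b * u := by
  obtain ⟨a1, a2, a3, a4⟩ := pm_big h1 hb hn
  obtain ⟨x1, S1, C1, q1, rfl, rfl⟩ := p1.peel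
  obtain ⟨x2, S2, C2, q2, rfl, rfl⟩ := p2.peel
  have b1 := q1.bd
  have b2 := q2.bd
  have hF : pf h b n = 2 * (n * h) + pm h b n + 929 * h + 19 := by unfold pf; ring
  obtain ⟨s, rfl, rfl⟩ := level1 (L := 2 * L) (n := n) (f1 := 4 * (n * h) - 198 * h - 4)
    (f2 := 2 * pm h b n - 202 * h - 4) (m1 := 2 * (n * h) + 2 * h) (m2 := pm h b n) (x1 := x1)
    (x2 := x2) (R := S1 + S2) (F := pf h b n) (by rw [abs_le]; omega) (by rw [abs_le]; omega)
    (by omega) (by omega) (by omega) (by omega) (by omega) (pe_nonneg b n (by omega) ha) hL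
    (by unfold ps py pz at eR; linear_combination eR)
  obtain ⟨k1, T1, D1, r1, rfl, rfl⟩ := q1.peel
  obtain ⟨k2, T2, D2, r2, rfl, rfl⟩ := q2.peel
  have c1 := r1.bd
  have c2 := r2.bd
  have s0 : 0 ≤ 2 * h + s := nonneg_of_mul_nonneg_right (a := n + 1) (by linarith [b1.1]) (by omega)
  have s1 : k1 + k2 + s ≤ 946 * h := by linarith [c1.2.2.2, c2.2.2.2]
  have hs : |s| ≤ 1000 * h := by rw [abs_le]; omega
  have hk1 : |k1| ≤ 1000 * h := by rw [abs_le]; omega
  have hk2 : |k2| ≤ 1000 * h := by rw [abs_le]; omega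
  have hh : |h| ≤ h := (abs_of_nonneg (by omega)).le
  have n0 : |n| ≤ n := (abs_of_nonneg (by omega)).le
  refine ⟨s, k2 - (209 * h + 4), hs, ?_⟩
  have := abs_cancel (M := n * n + (n + 1) * (n + 1)) (y := s ^ 2 - a - b * (k2 - (209 * h + 4)))
    (A := 0) (by linarith) (by
      have d1 := abs_le.1 (absmul hs hk1)
      have d2 := abs_le.1 (absmul hh hk1)
      have d3 := abs_le.1 (absmul hh hk2)
      have d4 := abs_le.1 (absmul hh hs)
      have d5 := abs_le.1 (absmul hk1 hk1)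
      have d6 := abs_le.1 (absmul hk2 hk2)
      have d7 := abs_le.1 (absmul n0 (absmul hs hk1))
      have d8 := abs_le.1 (absmul n0 (absmul hs hk2))
      have d9 := abs_le.1 (absmul n0 (absmul hh hk1))
      have d10 := abs_le.1 (absmul n0 (absmul hh hk2))
      have d11 : n * n = n * (10000000 * (h * h)) := congrArg _ hn
      have d12 : 1000 * (h * h) ≤ n * (h * h) :=
        mul_le_mul_of_nonneg_right (by omega) (by omega)
      rw [abs_le] at hs hk1 hk2
      unfold ps pe py pz pm at eR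
      rw [abs_lt]
      constructor <;> linarith [mul_self_nonneg k1, mul_self_nonneg k2])
  rw [abs_nonpos_iff] at this
  omega

theorem four_tri (N : ℤ) (hN : 0 ≤ N) : ∃ x y z v : ℤ,
    N = 2 * (x * x) + x + (2 * (y * y) + y) + (2 * (z * z) + z) + (2 * (v * v) + v) := by
  lift N to ℕ using hN
  obtain ⟨a, b, c, d, e⟩ := Nat.sum_four_squares (2 * N + 1)
  have e' : (a : ℤ) * a + b * b + c * c + d * d = 2 * N + 1 := by
    simp only [← sq]; exact_mod_cast e
  have par : ∀ x : ℤ, ∃ k, x * x = x + 2 * k := fun x =>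
    (Int.even_mul_pred_self x).imp fun k hk => by linarith
  have odd : ∀ o : ℤ, o % 2 = 1 → ∃ v, o * o = 8 * (2 * (v * v) + v) + 1 := fun o ho => by
    obtain ⟨v, rfl | rfl⟩ : ∃ v, o = 4 * v + 1 ∨ o = -(4 * v + 1) := by
      rcases (by omega : o % 4 = 1 ∨ o % 4 = 3) with h | h
      exacts [⟨o / 4, by omega⟩, ⟨-(o / 4) - 1, by omega⟩]
    all_goals exact ⟨v, by ring⟩
  obtain ⟨k1, h1⟩ := par a
  obtain ⟨k2, h2⟩ := par b
  obtain ⟨k3, h3⟩ := par c
  obtain ⟨k4, h4⟩ := par d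
  obtain ⟨x, hx⟩ := odd (a + b + c + d) (by omega)
  obtain ⟨y, hy⟩ := odd (a + b - c - d) (by omega)
  obtain ⟨z, hz⟩ := odd (a - b + c - d) (by omega)
  obtain ⟨v, hv⟩ := odd (a - b - c + d) (by omega)
  exact ⟨x, y, z, v, by linarith⟩

theorem real23 {h a b n L c s u : ℤ} (h1 : 1 ≤ h) (ha : 0 ≤ a) (hb : 1 ≤ b)
    (hn : n = 10000000 * (h * h)) (hL : 20 * (pf h b n * pf h b n) + pe h a b n < 2 * L)
    (hc : py h n L + pz h b n L ≤ c) (s1 : |s| ≤ h) (u1 : |u| ≤ h) (e : s ^ 2 = a + b * u) :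
    ∃ w : List (Fin 2), (w.count 0 : ℤ) = 2 * c ∧ w.count 1 = 15 ∧
      (occ w [0, 1] : ℤ) = 2 * py h n L - 2 * pz h b n L + 14 * c ∧
      (2 * occ w [0, 0, 1] + occ w [0, 1] : ℤ) = ps h a b n L + 28 * c * c - 8 * c * pz h b n L ∧
      (occ w [0, 1, 1] : ℤ) = pf h b n + 14 * py h n L + 42 * c - 12 * pz h b n L := by
  obtain ⟨a1, a2, a3, a4⟩ := pm_big h1 hb hn
  have n0 : |n| ≤ n := (abs_of_nonneg (by omega)).le
  have d1 := abs_le.1 (absmul s1 s1)
  have d2 := abs_le.1 (absmul s1 u1)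
  have d3 := abs_le.1 (absmul u1 u1)
  have d4 := abs_le.1 (absmul n0 s1)
  obtain ⟨x, y, z, v, hN⟩ := four_tri (13 * (h * h) - (8 * (u * u) + 4 * (s * u) + s * s))
    (by omega)
  have t0 : ∀ x : ℤ, 0 ≤ 2 * (x * x) + x := fun x => by linarith [le_mul_me (-x), mul_self_nonneg x]
  have t1 : ∀ x : ℤ, 2 * (x * x) + x ≤ 13 * (h * h) → -(3 * h) ≤ x ∧ x ≤ 3 * h := fun x hx =>
    abs_le.1 (abs_le_of_sq_le_sq' (by linarith [le_mul_me (-x), sq_nonneg (x + 1)]) (by omega) |>
      abs_le.2)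
  have t2 : 0 ≤ 8 * (u * u) + 4 * (s * u) + s * s := by
    linarith [mul_self_nonneg (s + 2 * u), mul_self_nonneg u]
  have x1 := t1 x (by linarith [t0 y, t0 z, t0 v])
  have y1 := t1 y (by linarith [t0 x, t0 z, t0 v])
  have z1 := t1 z (by linarith [t0 x, t0 y, t0 v])
  have v1 := t1 v (by linarith [t0 x, t0 y, t0 z])
  have hF : pf h b n = 2 * (n * h) + pm h b n + 929 * h + 19 := by unfold pf; ring
  have l1 := le_mul_me (pf h b n)
  have l2 := pe_nonneg b n (show 0 ≤ h by omega) ha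
  have l3 : L ≤ L * n := le_mul_of_one_le_right (by omega) (by omega)
  have hy : py h n L = L * n + 2 * (n * h) - 99 * h - 2 := by unfold py; ring
  have hz : pz h b n L = L * n + L + pm h b n - 101 * h - 2 := by unfold pz; ring
  rw [abs_le] at s1 u1
  obtain ⟨w, e0, e1, e2, e3, e4⟩ := exists_rows (show (0 : Fin 2) ≠ 1 by decide)
    [2 * c - (6 * h + y + z), 2 * c - (18 * h - y + v), 2 * c - (30 * h + x - z),
      2 * c - (42 * h - x - v), 2 * c - (113 * h + 4 + u),
      2 * c - (pm h b n - n * s - (209 * h + 4 + u)), 2 * c - (2 * pz h b n L - (pm h b n - n * s)),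
      2 * py h n L - (2 * (n * h) + 2 * h + n * s + s),
      2 * (n * h) + 2 * h + n * s + s - (209 * h + 4 + u), 60 * h + 3 * u + s, 53 * h - s - 2 * u,
      42 * h + 2 + x + z, 30 * h + 1 - x + v, 18 * h + 1 + y - z, 6 * h - y - v] (2 * c)
    (by simp only [Desc]; omega)
  simp only [wsum, map_cons, map_nil, sum_cons, sum_nil] at e2 e3 e4
  rw [← occ_reverse w] at e2 e4
  rw [← occ_reverse w, ← occ_reverse w] at e3
  refine ⟨w.reverse, by rwa [count_reverse], by rwa [count_reverse], e2.trans (by ring),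
    e3.trans ?_, e4.trans (by rw [hF]; ring)⟩
  unfold ps pe py pz pm
  linear_combination 2 * (n * n + (n + 1) * (n + 1)) * e - 2 * hN

theorem eqv_bin2 {U V : List (Fin 2)} (k : ∀ a, U.count a = V.count a)
    (h : occ U [0, 1] = occ V [0, 1]) : Eqv 2 (ws U) (ws V) := by
  have s := occ2_swap U (show (0 : Fin 2) ≠ 1 by decide)
  rw [k, k, ← occ2_swap V (show (0 : Fin 2) ≠ 1 by decide)] at s
  refine eqv_two 0 k fun b hb b' hb' => ?_
  fin_cases b <;> fin_cases b' <;> simp at hb hb' ⊢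
  omega

theorem eqv_bin3 {U V : List (Fin 2)} (h : Eqv 2 (ws U) (ws V))
    (h1 : occ U [0, 0, 1] = occ V [0, 0, 1]) (h2 : occ U [0, 1, 1] = occ V [0, 1, 1]) :
    Eqv 3 (ws U) (ws V) := by
  have k := h.count (by omega)
  have a1 : occ U [0, 1] = occ V [0, 1] := by simpa [ws_apply] using h [0, 1] le_rfl
  have a2 : occ U [1, 0] = occ V [1, 0] := by simpa [ws_apply] using h [1, 0] le_rfl
  have n1 : (0 : Fin 2) ≠ 1 := by decide
  have b1 := shufA n1 U
  have b2 := shufB n1 U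
  have b3 := shufA n1.symm U
  have b4 := shufB n1.symm U
  rw [k, a1, shufA n1] at b1
  rw [k, a2, shufB n1] at b2
  rw [k, a2, shufA n1.symm] at b3
  rw [k, a1, shufB n1.symm] at b4
  have r : ∀ a, occ U [a, a, a] = occ V [a, a, a] := fun a =>
    (occ_replicate U a 3).trans (k a ▸ (occ_replicate V a 3).symm)
  refine (Sh.of_eqv (ws_one _) h).eqv_succ fun u hu => ?_
  obtain ⟨x, y, z, rfl⟩ := length_eq_three.1 hu
  fin_cases x <;> fin_cases y <;> fin_cases z <;> simp [ws_apply, r] <;> omega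

theorem base23 {ι : Type} {p : (ι → ℕ) → ℕ} (hp : Nice fun P => (p P : ℤ))
    {D A F : (ι → ℕ) → ℤ} (hD : Nice D) (hA : Nice A) (hF : Nice F) :
    ∃ g : (ι → ℕ) → Ser (Fin 2), Good 3 g ∧ ∀ P w, ((w.count 0 : ℤ) = p P → w.count 1 = 15 →
      (occ w [0, 1] : ℤ) = D P → (occ w [0, 0, 1] : ℤ) = A P → (occ w [0, 1, 1] : ℤ) = F P →
      Eqv 3 (ws w) (g P)) ∧ ∀ e : ℕ, Eqv 3 (ws w) (g P * ws (replicate e 1)) →
        w.count 0 = p P ∧ (occ w [0, 1] : ℤ) = D P + p P * e ∧
        (2 * occ w [0, 0, 1] : ℤ) = 2 * A P + p P * (p P - 1) * e ∧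
        (2 * occ w [0, 1, 1] : ℤ) = 2 * F P + 2 * D P * e + p P * (e * (e - 1)) := by
  have g0 := (Good.one (ι := ι)).mul (s := 3) (v := fun P => replicate (p P) (0 : Fin 2) ++
    replicate 15 1) (((NiceS.rep 0 hp).mul (NiceS.const (ws (replicate 15 1)))).of_eq
      fun P => by simp only [ws_append]) fun P => by simp
  obtain ⟨g1, a1, b1⟩ := g0.adjust le_rfl (eqv_one_of_perm (Perm.swap (1 : Fin 2) 0 []))
    (hD.sub (g0.nice [0, 1]))
  obtain ⟨g2, a2, b2⟩ := a1.adjust (u := [0, 1, 1, 0]) (v := [1, 0, 0, 1]) one_le_two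
    (eqv_bin2 (by decide) (by decide)) (hF.sub (a1.nice [0, 1, 1]))
  obtain ⟨g3, a3, b3⟩ := a2.adjust (u := [0, 1, 1, 0, 0, 0, 0, 1]) (v := [1, 0, 0, 0, 1, 0, 1, 0])
    one_le_two (eqv_bin2 (by decide) (by simp [occ_cons])) (hA.sub (a2.nice [0, 0, 1]))
  refine ⟨g3, a3, fun P w => ?_⟩
  have s := (b3 P).eqv.trans (b2 P).eqv
  have c0 := (s [0] (by simp)).trans ((b1 P).eqv [0] le_rfl)
  have c1 := (s [1] (by simp)).trans ((b1 P).eqv [1] le_rfl)
  have c2 := (s [0, 0] le_rfl).trans ((b1 P).top [0, 0] rfl)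
  have c3 := (s [0, 1] le_rfl).trans ((b1 P).top [0, 1] rfl)
  have c4 := (b3 P).top [0, 0, 1] rfl
  have c5 := (b3 P).top [0, 1, 1] rfl
  rw [(b2 P).top [0, 1, 1] rfl] at c5
  simp only [one_mul, ws_apply, occ_single, occ2_diag, count_append, count_replicate, zsmul_apply,
    sub_apply] at c0 c1 c2 c3 c4 c5
  simp [occ_cons] at c0 c1 c2 c3 c4 c5
  have o := (a3.fr P).one
  constructor
  · intro e0 e1 e2 e3 e4
    refine fr_step (a3.fr P) (fr_step (a3.fr P) (eqv_one (by simp [o]) fun a => ?_)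
      (fun u => u = [0, 1]) ?_ fun X Y h1 h2 => eqv_bin2 (h1.count le_rfl) (h2 _ rfl rfl))
      (fun u => u = [0, 0, 1] ∨ u = [0, 1, 1]) ?_ fun X Y h1 h2 =>
        eqv_bin3 h1 (h2 _ (Or.inl rfl) rfl) (h2 _ (Or.inr rfl) rfl)
    · fin_cases a <;> simp [ws_apply, occ_single, *]
    · rintro _ rfl -; simp [ws_apply, *]
    · rintro _ (rfl | rfl) - <;> simp [ws_apply, *]
  · intro e h
    have z : ∀ u, ws (replicate e (1 : Fin 2)) (0 :: u) = 0 := fun u => by
      rw [ws_apply, Nat.cast_eq_zero]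
      by_contra h0
      simpa using ((occ_pos_iff _ _).1 (Nat.pos_of_ne_zero h0)).subset mem_cons_self
    have d0 := h [0] (by simp)
    have d1 := h [0, 1] (by simp)
    have d2 := h [0, 0, 1] le_rfl
    have d3 := h [0, 1, 1] le_rfl
    simp only [mul_cons, mul_nil, der_apply, z, ws_one, c0, c2, c3, c4, c5] at d0 d1 d2 d3
    simp only [ws_apply, occ_single, occ2_diag, count_replicate_self] at d0 d1 d2 d3
    exact ⟨by omega, by linarith, by linear_combination 2 * d2 + e * two_choose (p P),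
      by linear_combination 2 * d3 + p P * two_choose e⟩

theorem rob23 : Rob QY QN 3 (1 : Fin 2) := by
  let n : (Fin 3 → ℕ) → ℤ := fun P => 10000000 * (P 0 * P 0)
  let m : (Fin 3 → ℕ) → ℤ := fun P => pm (P 0) (P 2) (n P)
  let f : (Fin 3 → ℕ) → ℤ := fun P => pf (P 0) (P 2) (n P)
  let L : (Fin 3 → ℕ) → ℤ := fun P => 10 * (f P * f P) + pe (P 0) (P 1) (P 2) (n P) + 1
  let y : (Fin 3 → ℕ) → ℤ := fun P => py (P 0) (n P) (L P)
  let z : (Fin 3 → ℕ) → ℤ := fun P => pz (P 0) (P 2) (n P) (L P)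
  let E : (Fin 3 → ℕ) → ℤ := fun P => ps (P 0) (P 1) (P 2) (n P) (L P)
  let c : (Fin 3 → ℕ) → ℕ := fun P =>
    (4 * ((2 * y P + 2 * z P) * (2 * y P + 2 * z P)) + E P + 1).toNat
  let A : (Fin 3 → ℕ) → ℤ := fun P => 2 * (y P - P 0 * (n P + 1)) ^ 2 + 2 * (P 0 * (n P + 1)) ^ 2 -
    2 * (P 0 * (n P + 1)) * (209 * P 0 + 4) + (209 * P 0 + 4) ^ 2 + m P ^ 2 -
    m P * (209 * P 0 + 4) + 2 * z P ^ 2 - 2 * z P * m P + (12626 * (P 0 * P 0) + 584 * P 0 + 11) +
    (n P * n P + (n P + 1) * (n P + 1)) * P 1 - y P + z P + 14 * c P * c P - 4 * c P * z P - 7 * c P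
  have e0 : ∀ P, 0 ≤ pe (P 0) (P 1) (P 2) (n P) := fun P =>
    pe_nonneg _ _ (by positivity) (by positivity)
  have E0 : ∀ P, 0 ≤ E P := fun P => by have := e0 P; simp only [E, ps]; positivity
  have hc : ∀ P, (c P : ℤ) = 4 * ((2 * y P + 2 * z P) * (2 * y P + 2 * z P)) + E P + 1 := fun P =>
    Int.toNat_of_nonneg (by linarith [E0 P, mul_self_nonneg (2 * y P + 2 * z P)])
  have hA : ∀ P, 2 * A P + (2 * y P - 2 * z P + 14 * c P) =
      E P + 28 * c P * c P - 8 * c P * z P := fun P => by simp only [A, E, ps, pe, m, y, z]; ring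
  have hL : ∀ P, 20 * (f P * f P) + pe (P 0) (P 1) (P 2) (n P) < 2 * L P := fun P => by
    have := e0 P; simp only [L]; omega
  have N : Nice n ∧ Nice m ∧ Nice f ∧ Nice L ∧ Nice y ∧ Nice z ∧ Nice E := by
    simp only [n, m, f, L, y, z, E, ps, pe, py, pz, pf, pm]
    repeat' first
      | exact Nice.const _ | exact Nice.var _ | apply And.intro | apply Nice.sub | apply Nice.add
      | apply Nice.mul | apply Nice.pow
  obtain ⟨n1, n2, n3, -, n5, n6, n7⟩ := N
  have n8 : Nice fun P => (c P : ℤ) := by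
    simp only [hc]
    repeat' first
      | exact Nice.const _ | assumption | apply Nice.add | apply Nice.mul
  refine (base23 (p := fun P => 2 * c P) (D := fun P => 2 * y P - 2 * z P + 14 * c P) (A := A)
    (F := fun P => f P + 14 * y P + 42 * c P - 12 * z P) ?_ ?_ ?_ ?_).imp
    fun g h2 => ⟨h2.1, fun P => ⟨?_, fun e w hw c1 c2 => ?_⟩⟩
  iterate 4
    focus
      try simp only [Nat.cast_mul, A]
      repeat' first
        | exact Nice.const _ | assumption | exact Nice.var _ | apply Nice.sub | apply Nice.add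
        | apply Nice.mul | apply Nice.pow
  · rintro ⟨c1, c2, s, u, s1, u1, e⟩
    obtain ⟨w, k0, k1, k2, k3, k4⟩ := real23 (c := c P) (by exact_mod_cast c1)
      (Int.natCast_nonneg (P 1)) (by exact_mod_cast c2) rfl (hL P)
      (by linarith [hc P, E0 P, le_mul_me (y P + z P), mul_self_nonneg (y P + z P)]) s1 u1 e
    exact ⟨w, (h2.2 P w).1 (by exact_mod_cast k0) k1 k2 (by linarith [hA P]) k4⟩
  · obtain ⟨k0, k1, k2, k3⟩ := (h2.2 P w).2 e hw
    have c3 : (1 : ℤ) ≤ P 0 := by exact_mod_cast c1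
    have c4 : (1 : ℤ) ≤ P 2 := by exact_mod_cast c2
    obtain ⟨a1, a2, a3, a4⟩ := pm_big c3 c4 (rfl : n P = _)
    have l0 : 0 ≤ L P := by linarith [hL P, e0 P, mul_self_nonneg (f P)]
    have l1 : 0 ≤ L P * n P := mul_nonneg l0 (by positivity)
    push_cast at k1 k2 k3
    obtain ⟨R1, R2, B1, B2, p1, p2, eR, eB⟩ := level0 (show (0 : Fin 2) ≠ 1 by decide) w (c P)
      (2 * y P) (2 * z P) (E P) (f P) (7 + e) (by simp only [y, py]; linarith)
      (by simp only [z, pz]; linarith) (E0 P) (by linarith [hc P]) k0 (by linarith)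
      (by linear_combination k1 + k2 + hA P) (by linear_combination k3)
    exact core23 c3 (Int.natCast_nonneg _) c4 rfl (hL P) p1 p2 eR eB

end Pool.Agent.P.MP_26ce3f_co
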